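import Pool.Agent.J4.H70.FF.Eng

/-!
The values at a point of twisted Euler products are good functions of the character.
-/

set_option autoImplicit false
set_option linter.all false

open Module Polynomial

namespace Pool.Agent.J4.H70.FF

open Pool.Agent.W343.BSD Pool.Agent.Y18.LP

section ring

variable (Γ : Type) [CommGroup Γ] (R : Subring ℂ) (n : ℕ)

/-- the ring of the combinations of characters -/
def CR : Subring (Γ → ℂ) where
  carrier := {A | A ∈ Comb Γ n (1 : Submodule R ℂ)}
  mul_mem' := by
    intro a b ha hb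
    have h1 := Comb.mul (Γ := Γ) (e := n) ha hb
    rw [mul_one] at h1
    exact h1
  one_mem' := by
    have h1 := Comb.gen (Γ := Γ) (e := n) (W := (1 : Submodule R ℂ))
      (Submodule.one_le.1 le_rfl) 1 (fun g => by simp)
    have h2 : (fun g : Γ => (1 : ℂ) * (1 : Γ →* ℂ) g) = 1 := by
      funext g
      simp
    rw [h2] at h1
    exact h1
  add_mem' := fun {a b} ha hb => (Comb Γ n (1 : Submodule R ℂ)).add_mem ha hb
  zero_mem' := (Comb Γ n (1 : Submodule R ℂ)).zero_mem
  neg_mem' := fun {a} ha => (Comb Γ n (1 : Submodule R ℂ)).neg_mem ha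

variable {Γ R n}

/-- evaluation -/
def evC (g : Γ) : CR Γ R n →+* ℂ := (Pi.evalRingHom (fun _ : Γ => ℂ) g).comp (CR Γ R n).subtype

lemma evC_apply (g : Γ) (A : CR Γ R n) : evC g A = A.1 g := rfl

/-- a character -/
def chC (E : Γ →* ℂ) (hE : ∀ g, E g ^ n = 1) : CR Γ R n :=
  ⟨fun g => E g, by
    have h1 := Comb.gen (Γ := Γ) (e := n) (W := (1 : Submodule R ℂ))
      (Submodule.one_le.1 le_rfl) E hE
    have h2 : (fun g : Γ => (1 : ℂ) * E g) = fun g => E g := by
      funext g
      rw [one_mul]
    rw [h2] at h1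
    exact h1⟩

/-- a constant -/
def coC (t : R) : CR Γ R n :=
  ⟨fun _ => (t : ℂ), by
    have h1 := Comb.gen (Γ := Γ) (e := n) (W := (1 : Submodule R ℂ)) (w := (t : ℂ))
      (Submodule.mem_one.2 ⟨t, rfl⟩) 1 (fun g => by simp)
    have h2 : (fun g : Γ => (t : ℂ) * (1 : Γ →* ℂ) g) = fun g => (t : ℂ) := by
      funext g
      simp
    rw [h2] at h1
    exact h1⟩

end ring

section ev

variable {A B : Type} [CommRing A] [CommRing B]

lemma map_evalZ (φ : A →+* B) (P : ℤ[X]) (x : A) :
    φ ((P.map (Int.castRingHom A)).eval x) = (P.map (Int.castRingHom B)).eval (φ x) := by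
  rw [eval_map, eval_map, hom_eval₂]
  congr 1
  exact RingHom.ext_int _ _

lemma evalZ_one (P : ℤ[X]) : (P.map (Int.castRingHom B)).eval 1 = ((P.eval 1 : ℤ) : B) := by
  rw [eval_map, eval₂_at_one]
  rfl

lemma map_mapZ (φ : A →+* B) (P : ℤ[X]) :
    (P.map (Int.castRingHom A)).map φ = P.map (Int.castRingHom B) := by
  rw [Polynomial.map_map]
  congr 1
  exact RingHom.ext_int _ _

end ev

section main

variable {Γ : Type} [CommGroup Γ] {R : Subring ℂ} {n : ℕ} {J : Type} {d : J → ℕ}
  {P : J → ℤ[X]}

open Classical in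
/-- the value of the character of `g` at `v` -/
noncomputable def cg (E : J → Γ →* ℂ) (ram : Γ → Set J) (g : Γ) (v : J) : ℂ :=
  if v ∈ ram g then 0 else E v g

/-- **the values are good** -/
theorem good_L (hd : ∀ v, 0 < d v) (hfin : ∀ n, {v | d v ≤ n}.Finite)
    (hP : ∀ v, (P v).coeff 0 = 1) (hn : 0 < n) (E : J → Γ →* ℂ) (hE : ∀ v g, E v g ^ n = 1)
    (ram : Γ → Set J) (hram : ∀ g, (ram g).Finite)
    (hR : ∀ z : ℂ, z ^ n = 1 → z ∈ R) (P0 : Ideal R) (hprime : P0.IsPrime)
    (hP1 : ∀ z : R, (z : ℂ) ^ n = 1 → 1 - z ∈ P0) (t0 : R) (ht0 : 1 - t0 ∈ P0) (Qd : ℤ[X])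
    (M : Γ → ℂ[X])
    (hM : ∀ g, ((Qd.map (Int.castRingHom ℂ) : ℂ[X]) : PowerSeries ℂ) * LS d P (cg E ram g) = M g)
    (hadm : ∀ g, ∀ v ∈ ram g, (((P v).eval 1 : ℤ) : R) ∉ P0) :
    Good n P0 (1 : Submodule R ℂ) (fun g => (M g).eval (t0 : ℂ)) := by
  classical
  have hER : ∀ v g, E v g ∈ R := fun v g => hR _ (hE v g)
  -- the values of the characters in the ring
  let cR : Γ → J → R := fun g v => if v ∈ ram g then 0 else ⟨E v g, hER v g⟩
  have hcR : ∀ g v, R.subtype (cR g v) = cg E ram g v := by
    intro g v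
    show R.subtype (if v ∈ ram g then 0 else ⟨E v g, hER v g⟩) = if v ∈ ram g then 0 else E v g
    split_ifs
    · exact map_zero _
    · rfl
  refine ⟨?_, ?_⟩
  · -- values in the ring
    intro g
    have h1 : (M g : PowerSeries ℂ) = PowerSeries.map R.subtype
        (((Qd.map (Int.castRingHom R) : R[X]) : PowerSeries R) * LS d P (cR g)) := by
      have e2 : LS d P (fun v => R.subtype (cR g v)) = LS d P (cg E ram g) := by
        congr 1
        funext v
        exact hcR g v
      rw [← hM g, map_mul, LS_map hd hfin hP, ← Polynomial.polynomial_map_coe, map_mapZ, e2]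
    have h2 : ∀ j, (M g).coeff j ∈ R := by
      intro j
      have h3 := congrArg (PowerSeries.coeff j) h1
      rw [Polynomial.coeff_coe, PowerSeries.coeff_map] at h3
      rw [h3]
      exact Subtype.property _
    have h3 : (M g).eval (t0 : ℂ) ∈ R := by
      rw [Polynomial.eval_eq_sum, Polynomial.sum]
      exact R.sum_mem fun j _ => R.mul_mem (h2 j) (R.pow_mem t0.2 j)
    exact Submodule.mem_one.2 ⟨⟨_, h3⟩, rfl⟩
  · refine ⟨fun g => ∏ v ∈ (hram g).toFinset, (((P v).eval 1 : ℤ) : R), fun g h => ?_,
      fun Q => ?_⟩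
    · obtain ⟨v, hv, h1⟩ := (hprime.prod_mem_iff).1 h
      exact hadm g v ((hram g).mem_toFinset.1 hv) h1
    · -- the finite set of places
      set S : Finset J := Q.biUnion fun g => (hram g).toFinset with hS
      have hSr : ∀ g ∈ Q, ∀ v ∈ ram g, v ∈ S := by
        intro g hg v hv
        rw [hS, Finset.mem_biUnion]
        exact ⟨g, hg, (hram g).mem_toFinset.2 hv⟩
      let cS : J → CR Γ R n := fun v => if v ∈ S then 0 else chC (E v) (hE v)
      let LL : PowerSeries (CR Γ R n) :=
        ((Qd.map (Int.castRingHom (CR Γ R n)) : (CR Γ R n)[X]) : PowerSeries (CR Γ R n)) *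
          LS d P cS
      let N : Γ → ℂ[X] := fun g => M g * ∏ v ∈ S, lf (P v) (cg E ram g v) (d v)
      have hN : ∀ g ∈ Q, PowerSeries.map (evC g) LL = (N g : PowerSeries ℂ) := by
        intro g hg
        have h1 : LS d P (fun v => evC g (cS v)) = LS d P (cg E ram g) *
            ((∏ v ∈ S, lf (P v) (cg E ram g v) (d v) : ℂ[X]) : PowerSeries ℂ) := by
          apply LS_remove hd hfin hP
          · intro v hv
            show evC g (if v ∈ S then 0 else chC (E v) (hE v)) = if v ∈ ram g then 0 else E v g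
            rw [if_neg hv, if_neg (fun h => hv (hSr g hg v h))]
            rfl
          · intro v hv
            show evC g (if v ∈ S then 0 else chC (E v) (hE v)) = 0
            rw [if_pos hv, map_zero]
        show PowerSeries.map (evC g) (_ * LS d P cS) = _
        rw [map_mul, LS_map hd hfin hP, h1, ← Polynomial.polynomial_map_coe, map_mapZ,
          Polynomial.coe_mul, ← hM g, ← mul_assoc]
      set B : ℕ := Q.sup fun g => (N g).natDegree with hB
      let AQ : CR Γ R n := ∑ j ∈ Finset.range (B + 1), PowerSeries.coeff j LL * coC t0 ^ j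
      have hAQ : ∀ g ∈ Q, AQ.1 g = (N g).eval (t0 : ℂ) := by
        intro g hg
        have h1 : AQ.1 g = evC g AQ := rfl
        have hle : (N g).natDegree ≤ B := Finset.le_sup (f := fun g => (N g).natDegree) hg
        rw [h1, map_sum, Polynomial.eval_eq_sum_range' (n := B + 1) (by omega)]
        refine Finset.sum_congr rfl fun j _ => ?_
        rw [map_mul, map_pow, ← PowerSeries.coeff_map, hN g hg, Polynomial.coeff_coe]
        rfl
      have hnotP : (((∏ v ∈ S, (P v).eval 1 : ℤ)) : R) ∉ P0 := by
        intro h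
        rw [Int.cast_prod] at h
        obtain ⟨v, hv, h1⟩ := (hprime.prod_mem_iff).1 h
        rw [hS, Finset.mem_biUnion] at hv
        obtain ⟨g, hg, hv⟩ := hv
        exact hadm g v ((hram g).mem_toFinset.1 hv) h1
      refine ⟨AQ.1, AQ.2, ((∏ v ∈ S, (P v).eval 1 : ℤ) : R), hnotP, fun g hg => ?_⟩
      refine ⟨∏ v ∈ S, ((P v).map (Int.castRingHom R)).eval (cR g v * t0 ^ d v), ?_, ?_⟩
      · -- congruences
        rw [← Ideal.Quotient.eq_zero_iff_mem, map_sub, sub_eq_zero, map_mul, map_prod, map_prod,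
          Int.cast_prod, map_prod]
        have hsub : (hram g).toFinset ⊆ S := fun v hv => hSr g hg v ((hram g).mem_toFinset.1 hv)
        have h1 : ∀ v, v ∉ (hram g).toFinset → Ideal.Quotient.mk P0
            (((P v).map (Int.castRingHom R)).eval (cR g v * t0 ^ d v)) =
              Ideal.Quotient.mk P0 (((P v).eval 1 : ℤ) : R) := by
          intro v hv
          have hv' : v ∉ ram g := fun h => hv ((hram g).mem_toFinset.2 h)
          have h2 : cR g v = ⟨E v g, hER v g⟩ := if_neg hv'
          have h3 : Ideal.Quotient.mk P0 (cR g v * t0 ^ d v) = 1 := by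
            have h4 : Ideal.Quotient.mk P0 (cR g v) = 1 := by
              rw [h2]
              have := hP1 ⟨E v g, hER v g⟩ (hE v g)
              rw [← Ideal.Quotient.eq_zero_iff_mem, map_sub, map_one, sub_eq_zero] at this
              exact this.symm
            have h5 : Ideal.Quotient.mk P0 t0 = 1 := by
              rw [← Ideal.Quotient.eq_zero_iff_mem, map_sub, map_one, sub_eq_zero] at ht0
              exact ht0.symm
            rw [map_mul, map_pow, h4, h5, one_pow, mul_one]
          rw [map_evalZ, h3, evalZ_one, map_intCast]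
        have h2 : ∀ v ∈ (hram g).toFinset, Ideal.Quotient.mk P0
            (((P v).map (Int.castRingHom R)).eval (cR g v * t0 ^ d v)) = 1 := by
          intro v hv
          have hv' : v ∈ ram g := (hram g).mem_toFinset.1 hv
          have h3 : cR g v = 0 := if_pos hv'
          rw [h3, zero_mul, ← Polynomial.coeff_zero_eq_eval_zero, Polynomial.coeff_map, hP, map_one,
            map_one]
        rw [← Finset.prod_sdiff hsub, ← Finset.prod_sdiff hsub, Finset.prod_eq_one h2, mul_one]
        congr 1
        refine Finset.prod_congr rfl fun v hv => ?_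
        exact h1 v (Finset.mem_sdiff.1 hv).2
      · rw [hAQ g hg]
        show (M g * ∏ v ∈ S, lf (P v) (cg E ram g v) (d v)).eval (t0 : ℂ) = _
        rw [Polynomial.eval_mul, Polynomial.eval_prod, Subring.smul_def, smul_eq_mul, mul_comm]
        congr 1
        rw [← Subring.coe_subtype, map_prod]
        refine Finset.prod_congr rfl fun v _ => ?_
        rw [lf_eval, ← hcR g v, map_evalZ, map_mul, map_pow]

end main

end Pool.Agent.J4.H70.FF
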