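import Pool.Agent.Y18.LP.TupA
import Pool.Agent.Y18.LP.Rng

/-!
Nonvanishing of good functions on groups of exponent `e`: proportions and infinite subgroups.
-/

set_option autoImplicit false
set_option linter.all false

namespace Pool.Agent.J4.H70.FF

open Finset Pool.Agent.Y18.LP

section
variable {G : Type} [CommGroup G] {R : Subring ℂ} [IsNoetherianRing R] {e : ℕ} {ι : Type} [Fintype ι]

lemma zpow_modA {x : G} {e : ℕ} (he : 0 < e) (h : x ^ e = 1) (j : ℤ) :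
    ∃ m : ℕ, x ^ j = x ^ m := by
  refine ⟨(j % (e : ℤ)).toNat, ?_⟩
  have h3 : 0 ≤ j % (e : ℤ) := Int.emod_nonneg _ (by exact_mod_cast he.ne')
  rw [← zpow_natCast, Int.toNat_of_nonneg h3]
  conv_lhs => rw [← Int.emod_add_mul_ediv j (e : ℤ)]
  rw [zpow_add, zpow_mul, zpow_natCast, h, one_zpow, mul_one]

/-- **one more generator** -/
theorem ext_abs (hR : ∀ z : ℂ, z ^ e = 1 → z ∈ R) (he : 0 < e) {P : Ideal R} (hP : P.IsMaximal)
    (hP1 : ∀ z : R, (z : ℂ) ^ e = 1 → 1 - z ∈ P) (H : Subgroup G) (hH : ∀ c ∈ H, c ^ e = 1)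
    (β : ι → G → ℂ) (hg : ∀ i, Good e P (1 : Submodule R ℂ) (fun c : H => β i c))
    (F : Subgroup G) (hF : (F : Set G).Finite) (hFH : F ≤ H) (hFn : ∀ c ∈ F, ∀ i, β i c ≠ 0) :
    ∃ K : Finset G, (∀ k ∈ K, k ∈ H) ∧ ∀ c ∈ H, ∃ k ∈ K, ∀ h ∈ F, ∀ j : ℕ, ∀ i,
      β i (h * (c * k) ^ j) ≠ 0 := by
  classical
  set s : Finset (ι × G × ℕ) := univ ×ˢ (hF.toFinset ×ˢ range e) with hs
  have hmems : ∀ x : ι × G × ℕ, x ∈ s ↔ x.2.1 ∈ F ∧ x.2.2 < e := by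
    intro x
    rw [hs, Finset.mem_product, Finset.mem_product, Set.Finite.mem_toFinset, Finset.mem_range]
    simp
  have hgg := Good.prod (Γ := H) (e := e) hP.isPrime s
    (fun x => (1 : Submodule R ℂ))
    (fun x (c : H) => β x.1 (x.2.1 * (c : G) ^ x.2.2))
    (fun x hx => by
      have h1 := (hg x.1).comp hR ⟨x.2.1, hFH ((hmems x).1 hx).1⟩ x.2.2
      exact h1)
  have hval : ∏ x ∈ s, β x.1 (x.2.1 * ((1 : H) : G) ^ x.2.2) ≠ 0 := by
    refine Finset.prod_ne_zero_iff.2 fun x hx => ?_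
    have e3 : x.2.1 * ((1 : H) : G) ^ x.2.2 = x.2.1 := by
      rw [Subgroup.coe_one, one_pow, mul_one]
    rw [e3]
    exact hFn _ ((hmems x).1 hx).1 _
  obtain ⟨V, hV⟩ := krull hP.ne_top (fg_prod s (fun _ => (1 : Submodule R ℂ)) fun i _ => by
    rw [Submodule.one_eq_span]
    exact Submodule.fg_span_singleton _) (hgg.mem 1) hval
  obtain ⟨K, hK1, hK2⟩ := correction hR hP hP1 hgg (V := V) hV
  refine ⟨(K.map (fun c : H => (c : G))).toFinset, ?_, ?_⟩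
  · intro k hk
    rw [List.mem_toFinset, List.mem_map] at hk
    obtain ⟨c, _, rfl⟩ := hk
    exact c.2
  · intro c hc
    obtain ⟨k, hk, h1⟩ := hK2 ⟨c, hc⟩
    refine ⟨k, ?_, fun h hh j i => ?_⟩
    · rw [List.mem_toFinset, List.mem_map]
      exact ⟨k, hk, rfl⟩
    · have hpow : (c * (k : G)) ^ j = (c * (k : G)) ^ (j % e) :=
        pow_modA (hH _ (H.mul_mem hc k.2)) j
      rw [hpow]
      exact Finset.prod_ne_zero_iff.1 h1 (i, h, j % e) ((hmems _).2 ⟨hh, Nat.mod_lt _ he⟩)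

/-- **infinite subgroups** -/
theorem infinite_abs (hR : ∀ z : ℂ, z ^ e = 1 → z ∈ R) (he : 0 < e) {P : Ideal R}
    (hP : P.IsMaximal) (hP1 : ∀ z : R, (z : ℂ) ^ e = 1 → 1 - z ∈ P) (H : Subgroup G)
    (hH : ∀ c ∈ H, c ^ e = 1) (β : ι → G → ℂ)
    (hg : ∀ i, Good e P (1 : Submodule R ℂ) (fun c : H => β i c)) (hinf : (H : Set G).Infinite)
    (F : Subgroup G) (hFH : F ≤ H) (hFn : ∀ c ∈ F, ∀ i, β i c ≠ 0) :
    ∃ H0 : Subgroup G, F ≤ H0 ∧ H0 ≤ H ∧ (H0 : Set G).Infinite ∧ ∀ c ∈ H0, ∀ i, β i c ≠ 0 := by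
  classical
  let Z : Set (Subgroup G) := {G' | G' ≤ H ∧ ∀ c ∈ G', ∀ i, β i c ≠ 0}
  obtain ⟨G', hFG, hG⟩ := zorn_le_nonempty₀ Z (by
    intro C hC hchain G0 hG0
    refine ⟨sSup C, ⟨sSup_le fun G' hG => (hC hG).1, fun c hc i => ?_⟩, fun G' hG => le_sSup hG⟩
    have hdir : DirectedOn (· ≤ ·) C := hchain.directedOn
    rw [Subgroup.mem_sSup_of_directedOn ⟨G0, hG0⟩ hdir] at hc
    obtain ⟨G', hG, hcG⟩ := hc
    exact (hC hG).2 c hcG i) F ⟨hFH, hFn⟩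
  refine ⟨G', hFG, hG.prop.1, ?_, hG.prop.2⟩
  intro hfin
  obtain ⟨K, hK1, hK2⟩ := ext_abs hR he hP hP1 H hH β hg G' hfin hG.prop.1 hG.prop.2
  have hbad : (⋃ k ∈ K, (fun g : G => g * k⁻¹) '' (G' : Set G)).Finite :=
    Set.Finite.biUnion (Finset.finite_toSet K) fun k _ => hfin.image _
  obtain ⟨c, hcH, hc⟩ := hinf.exists_notMem_finite hbad
  obtain ⟨k, hk, h1⟩ := hK2 c hcH
  have hckG : c * k ∉ G' := by
    intro h2
    apply hc
    simp only [Set.mem_iUnion]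
    exact ⟨k, hk, c * k, h2, mul_inv_cancel_right c k⟩
  have hckH : c * k ∈ H := H.mul_mem hcH (hK1 k hk)
  have hle : G' ⊔ Subgroup.zpowers (c * k) ∈ Z := by
    refine ⟨sup_le hG.prop.1 (by rwa [Subgroup.zpowers_le]), ?_⟩
    intro x hx i
    obtain ⟨g, hg', y, hy, rfl⟩ := Subgroup.mem_sup.1 hx
    obtain ⟨j, rfl⟩ := Subgroup.mem_zpowers_iff.1 hy
    obtain ⟨m, hm⟩ := zpow_modA he (hH _ hckH) j
    rw [hm]
    exact h1 g hg' m i
  have h3 := hG.le_of_ge hle le_sup_left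
  exact hckG (h3 (Subgroup.mem_sup_right (Subgroup.mem_zpowers _)))

/-- **a positive proportion of the tuples** -/
theorem prop_abs (hR : ∀ z : ℂ, z ^ e = 1 → z ∈ R) (he : 0 < e) {P : Ideal R}
    (hP : P.IsMaximal) (hP1 : ∀ z : R, (z : ℂ) ^ e = 1 → 1 - z ∈ P) (β : ι → G → ℂ)
    (h1R : ∀ i, β i 1 ∈ (1 : Submodule R ℂ)) (h0 : ∀ i, β i 1 ≠ 0) (s : ℕ) :
    ∃ V : ℕ, ∀ H : Subgroup G, (H : Set G).Finite → (∀ c ∈ H, c ^ e = 1) →
      (∀ i, Good e P (1 : Submodule R ℂ) (fun c : H => β i c)) →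
      Nat.card H ^ s ≤ 2 ^ V *
        {c : Fin s → G | (∀ j, c j ∈ H) ∧ ∀ J : Fin s → ℕ, ∀ i,
          β i (∏ j, c j ^ J j) ≠ 0}.ncard := by
  classical
  obtain ⟨V, hV⟩ := krull hP.ne_top (fg_prod (univ : Finset (ι × (Fin s → Fin e)))
    (fun x => (1 : Submodule R ℂ)) fun i _ => by
      rw [Submodule.one_eq_span]
      exact Submodule.fg_span_singleton _)
    (prod_mem' univ (fun x : ι × (Fin s → Fin e) => (1 : Submodule R ℂ)) (fun x => β x.1 1)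
      fun i _ => h1R i.1) (Finset.prod_ne_zero_iff.2 fun i _ => h0 i.1)
  refine ⟨V, fun H hfin hH hg => ?_⟩
  obtain ⟨K, hK1, hK2, hK3⟩ := tup_abs hR he hP hP1 s H hH (fun _ => (1 : Submodule R ℂ)) β hg hV
  have hHf : Finite H := hfin
  set T : Set (Fin s → G) := {c | ∀ j, c j ∈ H} with hT
  have hTfin : T.Finite := Set.Finite.pi' (t := fun _ : Fin s => (H : Set G)) fun _ => hfin
  set Sg : Set (Fin s → G) := {c | (∀ j, c j ∈ H) ∧ ∀ J : Fin s → ℕ, ∀ i,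
          β i (∏ j, c j ^ J j) ≠ 0} with hSg
  have hSgfin : Sg.Finite := hTfin.subset fun c hc => hc.1
  have hcover : T ⊆ ⋃ k ∈ K, (fun c : Fin s → G => fun j => c j * (k j)⁻¹) '' Sg := by
    intro c hc
    obtain ⟨k, hk, h1⟩ := hK3 c hc
    simp only [Set.mem_iUnion]
    refine ⟨k, hk, fun j => c j * k j, ⟨fun j => H.mul_mem (hc j) (hK2 k hk j), h1⟩, ?_⟩
    funext j
    exact mul_inv_cancel_right _ _
  have hTcard : T.ncard = Nat.card H ^ s := by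
    have h1 : T.ncard = Nat.card (Fin s → H) := by
      rw [← Nat.card_coe_set_eq]
      refine Nat.card_congr ⟨fun c j => ⟨c.1 j, c.2 j⟩, fun c => ⟨fun j => c j, fun j => (c j).2⟩,
        fun c => rfl, fun c => rfl⟩
    rw [h1, Nat.card_fun, Nat.card_fin]
  have hUfin : (⋃ k ∈ K, (fun c : Fin s → G => fun j => c j * (k j)⁻¹) '' Sg).Finite :=
    Set.Finite.biUnion (Finset.finite_toSet K) fun k _ => hSgfin.image _
  rw [← hTcard]
  calc T.ncard ≤ (⋃ k ∈ K, (fun c : Fin s → G => fun j => c j * (k j)⁻¹) '' Sg).ncard :=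
        Set.ncard_le_ncard hcover hUfin
    _ ≤ ∑ k ∈ K, ((fun c : Fin s → G => fun j => c j * (k j)⁻¹) '' Sg).ncard := by
        exact Finset.set_ncard_biUnion_le K _
    _ ≤ ∑ k ∈ K, Sg.ncard := Finset.sum_le_sum fun k _ => Set.ncard_image_le hSgfin
    _ = K.card * Sg.ncard := by rw [Finset.sum_const, smul_eq_mul]
    _ ≤ 2 ^ V * Sg.ncard := Nat.mul_le_mul_right _ hK1

end

end Pool.Agent.J4.H70.FF
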