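import Mathlib

/-!
The ring generated by `1 / q` and the roots of unity of order a power of `l`, and a maximal ideal
over `l`.
-/

set_option autoImplicit false
set_option linter.all false

namespace Pool.Agent.J4.H70.FF

/-- the ring -/
def RQ (q n : ℕ) : Subring ℂ :=
  (Algebra.adjoin ℤ (insert (q : ℂ)⁻¹ {z : ℂ | z ^ n = 1})).toSubring

lemma roots_fin {n : ℕ} (hn : 0 < n) : {z : ℂ | z ^ n = 1}.Finite := by
  have : {z : ℂ | z ^ n = 1} ⊆ ((Polynomial.nthRoots n (1 : ℂ)).toFinset : Set ℂ) := by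
    intro z hz
    rw [Finset.mem_coe, Multiset.mem_toFinset, Polynomial.mem_nthRoots hn]
    exact hz
  exact (Finset.finite_toSet _).subset this

lemma RQ_noeth (q : ℕ) {n : ℕ} (hn : 0 < n) : IsNoetherianRing (RQ q n) := by
  have h1 : (insert (q : ℂ)⁻¹ {z : ℂ | z ^ n = 1}).Finite := (roots_fin hn).insert _
  have h2 : (Algebra.adjoin ℤ (insert (q : ℂ)⁻¹ {z : ℂ | z ^ n = 1})).FG :=
    Subalgebra.fg_def.2 ⟨_, h1, rfl⟩
  exact isNoetherianRing_of_fg h2

lemma RQ_int {q n : ℕ} (hq : 0 < q) (hn : 0 < n) {r : ℂ} (hr : r ∈ RQ q n) :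
    ∃ j : ℕ, IsIntegral ℤ ((q : ℂ) ^ j * r) := by
  have hqC : (q : ℂ) ≠ 0 := by exact_mod_cast hq.ne'
  have hqi : ∀ j : ℕ, IsIntegral ℤ ((q : ℂ) ^ j) := fun j => by
    have h1 : ((q : ℂ) ^ j) = algebraMap ℤ ℂ ((q : ℤ) ^ j) := by simp
    rw [h1]
    exact isIntegral_algebraMap
  change r ∈ Algebra.adjoin ℤ (insert (q : ℂ)⁻¹ {z : ℂ | z ^ n = 1}) at hr
  induction hr using Algebra.adjoin_induction with
  | mem x hx =>
    rcases hx with rfl | hx
    · exact ⟨1, by rw [pow_one, mul_inv_cancel₀ hqC]; exact isIntegral_one⟩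
    · refine ⟨0, ?_⟩
      rw [pow_zero, one_mul]
      refine IsIntegral.of_pow hn ?_
      rw [show x ^ n = 1 from hx]
      exact isIntegral_one
  | algebraMap a => exact ⟨0, by rw [pow_zero, one_mul]; exact isIntegral_algebraMap⟩
  | add x y _ _ h1 h2 =>
    obtain ⟨i, hi⟩ := h1
    obtain ⟨j, hj⟩ := h2
    refine ⟨i + j, ?_⟩
    have : (q : ℂ) ^ (i + j) * (x + y) =
        (q : ℂ) ^ j * ((q : ℂ) ^ i * x) + (q : ℂ) ^ i * ((q : ℂ) ^ j * y) := by ring
    rw [this]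
    exact ((hqi j).mul hi).add ((hqi i).mul hj)
  | mul x y _ _ h1 h2 =>
    obtain ⟨i, hi⟩ := h1
    obtain ⟨j, hj⟩ := h2
    refine ⟨i + j, ?_⟩
    have : (q : ℂ) ^ (i + j) * (x * y) = ((q : ℂ) ^ i * x) * ((q : ℂ) ^ j * y) := by ring
    rw [this]
    exact hi.mul hj

theorem exists_ring {q l : ℕ} (hl : l.Prime) (hq0 : 0 < q) (hq : l ∣ q - 1) (m : ℕ) :
    ∃ (R : Subring ℂ) (_ : IsNoetherianRing R) (P0 : Ideal R) (t0 : R), P0.IsMaximal ∧
      (∀ z : ℂ, z ^ (l ^ m) = 1 → z ∈ R) ∧ (∀ z : R, (z : ℂ) ^ (l ^ m) = 1 → 1 - z ∈ P0) ∧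
      (t0 : ℂ) = (q : ℂ)⁻¹ ∧ 1 - t0 ∈ P0 ∧ ∀ a : ℤ, (a : R) ∈ P0 → (l : ℤ) ∣ a := by
  classical
  have hn : 0 < l ^ m := pow_pos hl.pos m
  have hqC : (q : ℂ) ≠ 0 := by exact_mod_cast hq0.ne'
  set R := RQ q (l ^ m) with hR
  have hqR : (q : ℂ)⁻¹ ∈ R := Algebra.subset_adjoin (Set.mem_insert _ _)
  have hzR : ∀ z : ℂ, z ^ (l ^ m) = 1 → z ∈ R := fun z hz =>
    Algebra.subset_adjoin (Set.mem_insert_of_mem _ hz)
  have hne : Ideal.span {(l : R)} ≠ ⊤ := by
    intro h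
    rw [Ideal.eq_top_iff_one, Ideal.mem_span_singleton] at h
    obtain ⟨r, hr⟩ := h
    obtain ⟨j, hj⟩ := RQ_int hq0 hn r.2
    have h1 : (1 : ℂ) = l * (r : ℂ) := by
      have := congrArg R.subtype hr
      rw [map_one, map_mul, map_natCast] at this
      exact this
    have hlC : (l : ℂ) ≠ 0 := by exact_mod_cast hl.ne_zero
    have h2 : (q : ℂ) ^ j * r = algebraMap ℚ ℂ ((q : ℚ) ^ j / l) := by
      rw [map_div₀, map_pow, map_natCast, map_natCast, eq_div_iff hlC]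
      linear_combination (-(q : ℂ) ^ j) * h1
    rw [h2, isIntegral_algebraMap_iff (algebraMap ℚ ℂ).injective] at hj
    obtain ⟨a, ha⟩ := IsIntegrallyClosed.isIntegral_iff.1 hj
    have hlQ : (l : ℚ) ≠ 0 := by exact_mod_cast hl.ne_zero
    have h3 : (l : ℤ) * a = (q : ℤ) ^ j := by
      have h4 : (a : ℚ) = (q : ℚ) ^ j / l := by
        rw [← ha]
        rfl
      rw [eq_div_iff hlQ] at h4
      have : ((l * a : ℤ) : ℚ) = ((q ^ j : ℤ) : ℚ) := by
        push_cast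
        linear_combination h4
      exact_mod_cast this
    have h5 : (l : ℤ) ∣ (q : ℤ) ^ j := ⟨a, h3.symm⟩
    have h6 : l ∣ q ^ j := by exact_mod_cast h5
    have h7 : l ∣ q := hl.dvd_of_dvd_pow h6
    have h8 : l ∣ 1 := by
      have h9 : q = (q - 1) + 1 := by omega
      rw [h9] at h7
      exact (Nat.dvd_add_right hq).1 h7
    exact hl.one_lt.ne' (Nat.dvd_one.1 h8)
  obtain ⟨P0, hP0, hle⟩ := Ideal.exists_le_maximal _ hne
  have hlP : (l : R) ∈ P0 := hle (Ideal.mem_span_singleton_self _)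
  have hprime := hP0.isPrime
  refine ⟨R, RQ_noeth q hn, P0, ⟨(q : ℂ)⁻¹, hqR⟩, hP0, hzR, ?_, rfl, ?_, ?_⟩
  · intro z hz
    have hchar : CharP (R ⧸ P0) l := by
      have h1 : ((l : ℕ) : R ⧸ P0) = 0 := by
        have : ((l : ℕ) : R ⧸ P0) = Ideal.Quotient.mk P0 (l : R) := by simp
        rw [this]
        exact Ideal.Quotient.eq_zero_iff_mem.2 hlP
      have : Nontrivial (R ⧸ P0) := Ideal.Quotient.nontrivial_iff.2 hprime.ne_top
      exact ringChar.of_eq (CharP.ringChar_of_prime_eq_zero hl h1)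
    have : Fact l.Prime := ⟨hl⟩
    rw [← Ideal.Quotient.eq_zero_iff_mem, map_sub, map_one]
    set y := Ideal.Quotient.mk P0 z with hy
    have h0 : z ^ (l ^ m) = 1 := by
      apply Subtype.ext
      show (z ^ (l ^ m) : ℂ) = 1
      exact hz
    have h2 : y ^ (l ^ m) = 1 := by rw [hy, ← map_pow, h0, map_one]
    have h3 : (1 - y) ^ (l ^ m) = 0 := by
      rw [sub_pow_char_pow, one_pow, h2, sub_self]
    have hdom : IsDomain (R ⧸ P0) := (Ideal.Quotient.isDomain_iff_prime P0).2 hprime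
    exact (pow_eq_zero_iff (pow_ne_zero m hl.ne_zero)).1 h3
  · obtain ⟨c, hc⟩ := hq
    have h1 : (1 : R) - ⟨(q : ℂ)⁻¹, hqR⟩ = (⟨(q : ℂ)⁻¹, hqR⟩ * (c : R)) * (l : R) := by
      apply Subtype.ext
      show (1 : ℂ) - (q : ℂ)⁻¹ = ((q : ℂ)⁻¹ * (((c : ℕ) : R) : ℂ)) * (((l : ℕ) : R) : ℂ)
      have e1 : (((c : ℕ) : R) : ℂ) = c := by simp
      have e2 : (((l : ℕ) : R) : ℂ) = l := by simp
      rw [e1, e2]
      have h2 : (q : ℂ) = l * c + 1 := by
        have h3 : q = l * c + 1 := by omega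
        exact_mod_cast h3
      field_simp
      rw [h2]
      ring
    rw [h1]
    exact P0.mul_mem_left _ hlP
  · intro a ha
    by_contra hna
    apply hprime.ne_top
    rw [Ideal.eq_top_iff_one]
    have hco : IsCoprime (l : ℤ) a := (Nat.prime_iff_prime_int.1 hl).coprime_iff_not_dvd.2 hna
    obtain ⟨x, y, hxy⟩ := hco
    have h1 : (1 : R) = (x : R) * (l : R) + (y : R) * (a : R) := by
      have := congrArg (Int.cast (R := R)) hxy
      push_cast at this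
      exact this.symm
    rw [h1]
    exact P0.add_mem (P0.mul_mem_left _ hlP) (P0.mul_mem_left _ ha)

end Pool.Agent.J4.H70.FF
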