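import Pool.Agent.J4.H70.FF.Sym
import Pool.Agent.J4.H70.FF.Good
import Pool.Agent.J4.H70.FF.Grp
import Pool.Agent.J4.H70.FF.RingQ

/-!
Classes of elements modulo powers, the twisted `L`-functions, and their nonvanishing.
-/

set_option autoImplicit false
set_option linter.all false

open FF Module Polynomial

namespace Pool.Agent.J4.H70.FF

open Pool.Agent.W343.BSD Pool.Agent.H123R3.ZT Pool.Agent.W313.Gr Pool.Agent.TH639.CK
open Pool.Agent.Y18.LP

/-- the classes modulo `n`-th powers -/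
def Cl (n : ℕ) (K : Type) [Field K] : Type := Kˣ ⧸ (powMonoidHom n : Kˣ →* Kˣ).range

noncomputable instance (n : ℕ) (K : Type) [Field K] : CommGroup (Cl n K) :=
  inferInstanceAs (CommGroup (Kˣ ⧸ (powMonoidHom n : Kˣ →* Kˣ).range))

section clbasic

variable {n : ℕ} {K : Type} [Field K]

/-- the class -/
def cl (n : ℕ) {K : Type} [Field K] : Kˣ →* Cl n K :=
  QuotientGroup.mk' (powMonoidHom n : Kˣ →* Kˣ).range

/-- a representative -/
noncomputable def rep (c : Cl n K) : Kˣ := Quotient.out c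

lemma cl_rep (c : Cl n K) : cl n (rep c) = c := Quotient.out_eq c

lemma cl_surj (c : Cl n K) : ∃ f : Kˣ, cl n f = c := ⟨rep c, cl_rep c⟩

lemma rep_cl (f : Kˣ) : ∃ g : Kˣ, rep (cl n f) = f * g ^ n := by
  obtain ⟨⟨_, g, rfl⟩, hg⟩ := QuotientGroup.mk_out_eq_mul (powMonoidHom n : Kˣ →* Kˣ).range f
  exact ⟨g, hg⟩

lemma cl_pow (g : Kˣ) : cl n (g ^ n) = 1 := (QuotientGroup.eq_one_iff _).2 ⟨g, rfl⟩

lemma Cl_pow (c : Cl n K) : c ^ n = 1 := by
  obtain ⟨f, rfl⟩ := cl_surj c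
  rw [← map_pow, cl_pow]

/-- homomorphisms on the classes -/
def liftC {M : Type} [Monoid M] (φ : Kˣ →* M) (h : ∀ g, φ (g ^ n) = 1) : Cl n K →* M :=
  QuotientGroup.lift (powMonoidHom n : Kˣ →* Kˣ).range φ (by
    rintro _ ⟨g, rfl⟩
    exact h g)

lemma liftC_cl {M : Type} [Monoid M] (φ : Kˣ →* M) (h : ∀ g, φ (g ^ n) = 1) (f : Kˣ) :
    liftC φ h (cl n f) = φ f := rfl

end clbasic

variable {k K : Type} [Field k] [Finite k] [Field K] [Algebra k K] [FF.IsFF k K]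

/-- the character on the classes -/
noncomputable def EvC (χ : MulChar k ℂ) (v : Place k K) : Cl (orderOf χ) K →* ℂ :=
  liftC (Ev χ v) (fun g => by
    rw [map_pow]
    exact Ev_pow χ v g)

lemma EvC_mk (χ : MulChar k ℂ) (v : Place k K) (f : Kˣ) :
    EvC χ v (cl (orderOf χ) f) = Ev χ v f := rfl

lemma EvC_pow (χ : MulChar k ℂ) (v : Place k K) (c : Cl (orderOf χ) K) :
    EvC χ v c ^ orderOf χ = 1 := by
  rw [← map_pow, Cl_pow, map_one]

/-- the places at which the class is ramified -/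
def ramC (k : Type) {K : Type} [Field k] [Field K] [Algebra k K] {n : ℕ} (c : Cl n K) :
    Set (Place k K) := {v | ¬ (n : ℤ) ∣ v.ord (rep c : K)}

lemma mem_ramC {n : ℕ} (f : Kˣ) (v : Place k K) :
    v ∈ ramC k (cl n f) ↔ ¬ (n : ℤ) ∣ v.ord (f : K) := by
  obtain ⟨g, hg⟩ := rep_cl (n := n) f
  unfold ramC
  rw [Set.mem_setOf_eq, hg, Units.val_mul, Units.val_pow_eq_pow_val,
    v.ord_mul f.ne_zero (pow_ne_zero _ g.ne_zero), v.ord_pow,
    Int.dvd_add_left (dvd_mul_right _ _)]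

lemma ramC_fin {n : ℕ} (c : Cl n K) : (ramC k c).Finite := by
  refine (Pool.Agent.H525R3.FFp.finite_support (k := k) (rep c : K)).subset ?_
  intro v hv h0
  apply hv
  rw [h0]
  exact dvd_zero _

/-- the symbol is the value of the character -/
lemma symbol_eq (χ : MulChar k ℂ) (f : Kˣ) (v : Place k K) :
    symbol χ (f : K) v = cg (EvC χ) (ramC k) (cl (orderOf χ) f) v := by
  classical
  unfold cg
  by_cases h : (orderOf χ : ℤ) ∣ v.ord (f : K)
  · rw [if_neg (fun h2 => (mem_ramC f v).1 h2 h), symbol_unram χ v f h, EvC_mk]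
  · rw [if_pos ((mem_ramC f v).2 h), symbol_ram χ f.ne_zero v h]

/-- the twisted `L`-function -/
noncomputable def LT (χ : MulChar k ℂ) (P : Place k K → ℤ[X]) (f : K) : PowerSeries ℂ :=
  LS (fun v : Place k K => S.deg v) P (fun v => symbol χ f v)

lemma deg_pos'' (v : Place k K) : 0 < S.deg v := by
  rw [S.deg_eq]
  exact deg_pos' v

lemma deg_fin (n : ℕ) : {v : Place k K | S.deg v ≤ n}.Finite := by
  have h1 : {v : Place k K | S.deg v ≤ n} = {v : Place k K | v.deg ≤ n} := by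
    ext v
    rw [Set.mem_setOf_eq, Set.mem_setOf_eq, S.deg_eq]
  rw [h1]
  exact places_fin n

lemma LT_eq (χ : MulChar k ℂ) (P : Place k K → ℤ[X]) (f : Kˣ) :
    LT χ P (f : K) = LS (fun v : Place k K => S.deg v) P
      (cg (EvC χ) (ramC k) (cl (orderOf χ) f)) := by
  unfold LT
  congr 1
  funext v
  exact symbol_eq χ f v

/-- the `L`-function, multiplied by `Q`, is the polynomial `M` -/
def IsPol (χ : MulChar k ℂ) (P : Place k K → ℤ[X]) (Q : ℤ[X]) (f : K) (M : ℂ[X]) : Prop :=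
  ((Q.map (Int.castRingHom ℂ) : ℂ[X]) : PowerSeries ℂ) * LT χ P f = M

/-- nonvanishing -/
def NV (χ : MulChar k ℂ) (P : Place k K → ℤ[X]) (Q : ℤ[X]) (f : K) : Prop :=
  ∃ M : ℂ[X], IsPol χ P Q f M ∧ M.eval ((Nat.card k : ℂ)⁻¹) ≠ 0

section main

variable {ι : Type} [Fintype ι] (χ : MulChar k ℂ) (P : ι → Place k K → ℤ[X]) (Q : ι → ℤ[X])

open Classical in
/-- the polynomial of a class -/
noncomputable def Mx (i : ι) (c : Cl (orderOf χ) K) : ℂ[X] :=
  if h : ∃ M : ℂ[X], IsPol χ (P i) (Q i) (rep c : K) M then h.choose else 0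

/-- the value -/
noncomputable def bx (i : ι) (c : Cl (orderOf χ) K) : ℂ :=
  (Mx χ P Q i c).eval ((Nat.card k : ℂ)⁻¹)

omit [Fintype ι] in
lemma Mx_spec {i : ι} {f : Kˣ} {M : ℂ[X]} (h : IsPol χ (P i) (Q i) (f : K) M) :
    Mx χ P Q i (cl (orderOf χ) f) = M := by
  have h1 : LT χ (P i) (rep (cl (orderOf χ) f) : K) = LT χ (P i) (f : K) := by
    rw [LT_eq, LT_eq]
    congr 2
    exact cl_rep _
  have h2 : ∃ M : ℂ[X], IsPol χ (P i) (Q i) (rep (cl (orderOf χ) f) : K) M := by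
    refine ⟨M, ?_⟩
    unfold IsPol
    rw [h1]
    exact h
  unfold Mx
  rw [dif_pos h2]
  have h3 : (((Q i).map (Int.castRingHom ℂ) : ℂ[X]) : PowerSeries ℂ) *
      LT χ (P i) (rep (cl (orderOf χ) f) : K) = (h2.choose : PowerSeries ℂ) :=
    h2.choose_spec
  have h4 : (((Q i).map (Int.castRingHom ℂ) : ℂ[X]) : PowerSeries ℂ) * LT χ (P i) (f : K) =
      (M : PowerSeries ℂ) := h
  exact Polynomial.coe_injective ℂ (h3.symm.trans ((congrArg (fun y =>
    (((Q i).map (Int.castRingHom ℂ) : ℂ[X]) : PowerSeries ℂ) * y) h1).trans h4))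

omit [Fintype ι] in
lemma bx_ne {i : ι} {f : Kˣ} (hf : ∃ M : ℂ[X], IsPol χ (P i) (Q i) (f : K) M) :
    bx χ P Q i (cl (orderOf χ) f) ≠ 0 ↔ NV χ (P i) (Q i) (f : K) := by
  constructor
  · intro h
    obtain ⟨M, hM⟩ := hf
    refine ⟨M, hM, ?_⟩
    rwa [← Mx_spec χ P Q hM]
  · rintro ⟨M, hM, h⟩
    unfold bx
    rwa [Mx_spec χ P Q hM]

/-- the conditions -/
structure HypOn (l : ℕ) (H : Subgroup Kˣ) : Prop where
  P0 : ∀ i v, (P i v).coeff 0 = 1
  adm : ∀ f ∈ H, ∀ v : Place k K, ¬ (orderOf χ : ℤ) ∣ v.ord (f : K) →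
    ∀ i, ¬ (l : ℤ) ∣ (P i v).eval 1
  pol : ∀ i, ∀ f ∈ H, ∃ M : ℂ[X], IsPol χ (P i) (Q i) (f : K) M

variable {χ P Q}

omit [Fintype ι] in
/-- goodness -/
theorem good_cls {l m : ℕ} {H : Subgroup Kˣ} (hyp : HypOn χ P Q l H) (hχ : orderOf χ = l ^ m)
    {R : Subring ℂ} (hR : ∀ z : ℂ, z ^ orderOf χ = 1 → z ∈ R) {P0 : Ideal R} (hprime : P0.IsPrime)
    (hP1 : ∀ z : R, (z : ℂ) ^ orderOf χ = 1 → 1 - z ∈ P0) {t0 : R} (ht0 : 1 - t0 ∈ P0)
    (ht : (t0 : ℂ) = (Nat.card k : ℂ)⁻¹) (hint : ∀ a : ℤ, (a : R) ∈ P0 → (l : ℤ) ∣ a)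
    (H' : Subgroup (Cl (orderOf χ) K)) (hH' : H' ≤ H.map (cl (orderOf χ))) (i : ι) :
    Good (orderOf χ) P0 (1 : Submodule R ℂ) (fun c : H' => bx χ P Q i c) := by
  have hn : 0 < orderOf χ := orderOf_pos χ
  have key := good_L (Γ := H') (n := orderOf χ) (d := fun v : Place k K => S.deg v) (P := P i)
    deg_pos'' deg_fin (hyp.P0 i) hn (fun v => (EvC χ v).comp H'.subtype)
    (fun v g => EvC_pow χ v _) (fun g => ramC k (g : Cl (orderOf χ) K)) (fun g => ramC_fin _) hR P0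
    hprime hP1 t0 ht0 (Q i) (fun g => Mx χ P Q i (g : Cl (orderOf χ) K)) ?_ ?_
  · rw [ht] at key
    exact key
  · intro g
    obtain ⟨f, hf, hfg⟩ := hH' g.2
    obtain ⟨M, hM⟩ := hyp.pol i f hf
    have hfg' : cl (orderOf χ) f = g := hfg
    have h1 := Mx_spec χ P Q hM
    rw [hfg'] at h1
    have h2 : cg (fun v : Place k K => (EvC χ v).comp H'.subtype)
        (fun g : H' => ramC k (g : Cl (orderOf χ) K)) g =
        cg (EvC χ) (ramC k) (cl (orderOf χ) f) := by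
      rw [hfg']
      rfl
    rw [h1, h2, ← LT_eq]
    exact hM
  · intro g v hv h
    obtain ⟨f, hf, hfg⟩ := hH' g.2
    have hfg' : cl (orderOf χ) f = g := hfg
    have hv' : v ∈ ramC k (cl (orderOf χ) f) := by rw [hfg']; exact hv
    exact hyp.adm f hf v ((mem_ramC f v).1 hv') i (hint _ h)

end main

end Pool.Agent.J4.H70.FF
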