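import Pool.Agent.J4.H70.FF.Kap

/-!
The Kummer pairing.
-/

set_option autoImplicit false
set_option linter.all false

open FF Module Polynomial

namespace Pool.Agent.J4.H70.FF

open Pool.Agent.W343.BSD Pool.Agent.H123R3.ZT Pool.Agent.W313.Gr Pool.Agent.TH639.CK

section hom

/-- the number of characters -/
lemma card_hom_le {C : Type} [CommGroup C] [Finite C] (k : Type) [Field k] :
    Finite (C →* kˣ) ∧ Nat.card (C →* kˣ) ≤ Nat.card C := by
  classical
  have := Fintype.ofFinite C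
  have h1 : LinearIndependent k (fun f : C →* k => (f : C → k)) := linearIndependent_monoidHom C k
  let φ : (C →* kˣ) → (C →* k) := fun f => (Units.coeHom k).comp f
  have hφ : Function.Injective φ := by
    intro f g h
    ext x
    exact DFunLike.congr_fun h x
  have h2 : LinearIndependent k (fun f : C →* kˣ => (φ f : C → k)) := h1.comp φ hφ
  have h3 : Finite (C →* kˣ) := h2.finite
  have := Fintype.ofFinite (C →* kˣ)
  refine ⟨h3, ?_⟩
  have h4 := h2.fintype_card_le_finrank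
  rw [Module.finrank_fintype_fun_eq_card] at h4
  rwa [Nat.card_eq_fintype_card, Nat.card_eq_fintype_card]

lemma card_hom_sub {B : Type} [CommGroup B] [Finite B] (A : Subgroup B) (k : Type) [Field k] :
    Nat.card {φ : B →* kˣ // ∀ a ∈ A, φ a = 1} * Nat.card A ≤ Nat.card B := by
  obtain ⟨hf, hle⟩ := card_hom_le (C := B ⧸ A) k
  let ψ : {φ : B →* kˣ // ∀ a ∈ A, φ a = 1} → (B ⧸ A →* kˣ) :=
    fun φ => QuotientGroup.lift A φ.1 φ.2
  have hψ : Function.Injective ψ := by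
    rintro ⟨φ, h⟩ ⟨φ', h'⟩ he
    apply Subtype.ext
    ext x
    have := DFunLike.congr_fun he (x : B ⧸ A)
    exact congrArg Units.val this
  have h1 : Nat.card {φ : B →* kˣ // ∀ a ∈ A, φ a = 1} ≤ Nat.card (B ⧸ A) :=
    (Nat.card_le_card_of_injective ψ hψ).trans hle
  calc _ ≤ Nat.card (B ⧸ A) * Nat.card A := Nat.mul_le_mul_right _ h1
    _ = Nat.card B := (Subgroup.card_eq_card_quotient_mul_card_subgroup A).symm

end hom

section kap

variable {k K L : Type} [Field k] [Finite k] [Field K] [Algebra k K] [Field L]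
  [Algebra k L] [Algebra K L] [IsScalarTower k K L]

lemma root_const {n : ℕ} {ζ : k} (hζ : IsPrimitiveRoot ζ n) (hn : 0 < n) {M : Type} [Field M]
    [Algebra k M] {x : M} (hx : x ^ n = 1) : ∃ c : kˣ, x = algebraMap k M (c : k) := by
  have : NeZero n := ⟨hn.ne'⟩
  have h1 := hζ.map_of_injective (algebraMap k M).injective
  obtain ⟨i, -, hi⟩ := h1.eq_pow_of_pow_eq_one hx
  have h0 : ζ ≠ 0 := hζ.ne_zero hn.ne'
  refine ⟨Units.mk0 (ζ ^ i) (pow_ne_zero _ h0), ?_⟩
  rw [Units.val_mk0, map_pow]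
  exact hi.symm

lemma exists_kap {n : ℕ} {ζ : k} (hζ : IsPrimitiveRoot ζ n) (hn : 0 < n) (σ : L ≃ₐ[K] L)
    (f : Kˣ) : ∃ c : kˣ, ∀ y : L, y ^ n = algebraMap K L (f : K) →
      σ y = algebraMap k L (c : k) * y := by
  have hσk : ∀ c : k, σ (algebraMap k L c) = algebraMap k L c := fun c => by
    rw [IsScalarTower.algebraMap_apply k K L, AlgEquiv.commutes]
  by_cases h : ∃ y : L, y ^ n = algebraMap K L (f : K)
  · obtain ⟨y0, hy0⟩ := h
    have hf0 : algebraMap K L (f : K) ≠ 0 := (_root_.map_ne_zero _).2 f.ne_zero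
    have hy00 : y0 ≠ 0 := by
      rintro rfl
      rw [zero_pow hn.ne'] at hy0
      exact hf0 hy0.symm
    have h1 : (σ y0 / y0) ^ n = 1 := by
      rw [div_pow, ← map_pow, hy0, AlgEquiv.commutes, div_self hf0]
    obtain ⟨c, hc⟩ := root_const (M := L) hζ hn h1
    refine ⟨c, fun y hy => ?_⟩
    have h2 : (y / y0) ^ n = 1 := by rw [div_pow, hy, hy0, div_self hf0]
    obtain ⟨c', hc'⟩ := root_const (M := L) hζ hn h2
    have e1 : y = algebraMap k L (c' : k) * y0 := by rw [← hc', div_mul_cancel₀ _ hy00]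
    have e2 : σ y0 = algebraMap k L (c : k) * y0 := by rw [← hc, div_mul_cancel₀ _ hy00]
    rw [e1, map_mul, hσk, e2]
    ring
  · exact ⟨1, fun y hy => absurd ⟨y, hy⟩ h⟩

variable {n : ℕ} {ζ : k} (hζ : IsPrimitiveRoot ζ n) (hn : 0 < n)

/-- the Kummer pairing -/
noncomputable def kap (σ : L ≃ₐ[K] L) (f : Kˣ) : kˣ := (exists_kap hζ hn σ f).choose

lemma kap_spec (σ : L ≃ₐ[K] L) (f : Kˣ) {y : L} (hy : y ^ n = algebraMap K L (f : K)) :
    σ y = algebraMap k L (kap hζ hn σ f : k) * y := (exists_kap hζ hn σ f).choose_spec y hy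

lemma root_ne (hn : 0 < n) {f : Kˣ} {y : L} (hy : y ^ n = algebraMap K L (f : K)) : y ≠ 0 := by
  rintro rfl
  rw [zero_pow hn.ne'] at hy
  exact (_root_.map_ne_zero (algebraMap K L)).2 f.ne_zero hy.symm

lemma kap_eq {σ : L ≃ₐ[K] L} {f : Kˣ} {y : L} (hy : y ^ n = algebraMap K L (f : K)) {c : kˣ}
    (hc : σ y = algebraMap k L (c : k) * y) : kap hζ hn σ f = c := by
  have h1 := kap_spec hζ hn σ f hy
  rw [hc] at h1
  have h2 := mul_right_cancel₀ (root_ne hn hy) h1
  exact Units.ext ((algebraMap k L).injective h2.symm)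

/-- `f` has a root -/
def HasRoot (L : Type) [Field L] [Algebra K L] (n : ℕ) (f : Kˣ) : Prop :=
  ∃ y : L, y ^ n = algebraMap K L (f : K)

lemma kap_mul (σ : L ≃ₐ[K] L) {f g : Kˣ} (hf : HasRoot L n f) (hg : HasRoot L n g) :
    kap hζ hn σ (f * g) = kap hζ hn σ f * kap hζ hn σ g := by
  obtain ⟨y, hy⟩ := hf
  obtain ⟨z, hz⟩ := hg
  refine kap_eq hζ hn (y := y * z) ?_ ?_
  · rw [mul_pow, hy, hz, Units.val_mul, map_mul]
  · rw [map_mul, kap_spec hζ hn σ f hy, kap_spec hζ hn σ g hz, Units.val_mul, map_mul]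
    ring

lemma kap_pow (σ : L ≃ₐ[K] L) (g : Kˣ) : kap hζ hn σ (g ^ n) = 1 := by
  refine kap_eq hζ hn (y := algebraMap K L (g : K)) ?_ ?_
  · rw [Units.val_pow_eq_pow_val, map_pow]
  · rw [AlgEquiv.commutes, Units.val_one, map_one, one_mul]

lemma hasRoot_pow (g : Kˣ) : HasRoot L n (g ^ n) :=
  ⟨algebraMap K L (g : K), by rw [Units.val_pow_eq_pow_val, map_pow]⟩

lemma hasRoot_mul {f g : Kˣ} (hf : HasRoot L n f) (hg : HasRoot L n g) : HasRoot L n (f * g) := by
  obtain ⟨y, hy⟩ := hf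
  obtain ⟨z, hz⟩ := hg
  exact ⟨y * z, by rw [mul_pow, hy, hz, Units.val_mul, map_mul]⟩

end kap

end Pool.Agent.J4.H70.FF
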