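import Pool.Agent.J4.H70.FF.Dec

/-!
The decomposition groups in Kummer extensions.
-/

set_option autoImplicit false
set_option linter.all false

open FF Module Polynomial

namespace Pool.Agent.J4.H70.FF

open Pool.Agent.W343.BSD Pool.Agent.H123R3.ZT Pool.Agent.W313.Gr Pool.Agent.TH639.CK

variable {k K L : Type} [Field k] [Finite k] [Field K] [Algebra k K] [FF.IsFF k K] [Field L]
  [Algebra k L] [Algebra K L] [IsScalarTower k K L] [FF.IsFF k L]

/-- an `n`-th root of the unit part -/
lemma exists_unit_root {n : ℕ} (hn : 0 < n) {v : Place k K} {w : Place k L} {e : ℕ}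
    (hov : Over w v e) {f : Kˣ} (hf : (n : ℤ) ∣ v.ord (f : K)) {y : L}
    (hy : y ^ n = algebraMap K L (f : K)) :
    ∃ h : Kˣ, upart v (f : K) = (f : K) * (h : K) ^ n ∧
      (y * algebraMap K L (h : K)) ^ n = algebraMap K L (upart v (f : K)) ∧
      w.ord (y * algebraMap K L (h : K)) = 0 ∧ y * algebraMap K L (h : K) ≠ 0 := by
  obtain ⟨a, ha⟩ := hf
  have hh0 : unif v ^ (-a) ≠ 0 := zpow_ne_zero _ (unif_ne v)
  refine ⟨Units.mk0 _ hh0, ?_, ?_, ?_, ?_⟩
  · unfold upart
    rw [Units.val_mk0, ha, ← zpow_natCast, ← zpow_mul]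
    congr 2
    ring
  · have e1 : upart v (f : K) = (f : K) * (unif v ^ (-a)) ^ n := by
      unfold upart
      rw [ha, ← zpow_natCast (unif v ^ (-a)), ← zpow_mul]
      congr 2
      ring
    rw [mul_pow, hy, Units.val_mk0, ← map_pow, ← map_mul, e1]
  · have e1 : upart v (f : K) = (f : K) * (unif v ^ (-a)) ^ n := by
      unfold upart
      rw [ha, ← zpow_natCast (unif v ^ (-a)), ← zpow_mul]
      congr 2
      ring
    have h1 : (y * algebraMap K L (unif v ^ (-a))) ^ n = algebraMap K L (upart v (f : K)) := by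
      rw [mul_pow, hy, ← map_pow, ← map_mul, e1]
    have h2 := congrArg w.ord h1
    rw [w.ord_pow, hov.2, upart_ord v f.ne_zero, mul_zero] at h2
    rcases mul_eq_zero.1 h2 with h3 | h3
    · exact absurd (by exact_mod_cast h3) hn.ne'
    · exact h3
  · exact mul_ne_zero (root_ne hn hy) ((_root_.map_ne_zero _).2 hh0)

/-- elements of the decomposition group act trivially on the roots of split classes -/
lemma kap_dec (χ : MulChar k ℂ) {ζ : k} (hζ : IsPrimitiveRoot ζ (orderOf χ)) {v : Place k K}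
    {w : Place k L} {e : ℕ} (hov : Over w v e) {σ : L ≃ₐ[K] L} (hσ : cj σ w = w) {f : Kˣ}
    (hr : HasRoot L (orderOf χ) f) (hf : (orderOf χ : ℤ) ∣ v.ord (f : K)) (h1 : Ev χ v f = 1) :
    kap hζ (orderOf_pos χ) σ f = 1 := by
  have hn : 0 < orderOf χ := orderOf_pos χ
  obtain ⟨y, hy⟩ := hr
  obtain ⟨h, hu, hz, hzo, hz0⟩ := exists_unit_root hn hov hf hy
  set u := upart v (f : K) with hudef
  set z := y * algebraMap K L (h : K) with hzdef
  have hu0 : v.ord u = 0 := upart_ord v f.ne_zero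
  have hune : u ≠ 0 := upart_ne v f.ne_zero
  have hfin : Module.Finite k v.RF := Module.finite_of_finrank_pos (deg_pos' v)
  have hfin' : Finite v.RF := Module.finite_of_finite k
  -- the residue class is an `n`-th power
  obtain ⟨s0, hs0⟩ := exists_root_of_norm χ (x := v.red u) (v.red_ne_zero hune hu0) (by
    rw [← normRed_eq]
    exact h1)
  obtain ⟨s, hs, hsr⟩ := v.red_surjective s0
  have hzr : w.Reg z := Or.inr hzo.ge
  have hsL : w.Reg (algebraMap K L s) := hov.reg.2 hs
  have hs0ne : s0 ≠ 0 := by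
    rintro rfl
    rw [zero_pow hn.ne'] at hs0
    exact v.red_ne_zero hune hu0 hs0.symm
  have hsLne : w.red (algebraMap K L s) ≠ 0 := by
    rw [← hov.resMap_red hs, hsr]
    exact (map_ne_zero_iff _ (hov.resMap).toRingHom.injective).2 hs0ne
  have h2 : w.red z ^ orderOf χ = w.red (algebraMap K L s) ^ orderOf χ := by
    rw [← w.red_pow hzr, hz, ← hov.resMap_red (Or.inr hu0.ge), ← hs0, map_pow, ← hsr,
      hov.resMap_red hs]
  have h3 : (w.red z / w.red (algebraMap K L s)) ^ orderOf χ = 1 := by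
    rw [div_pow, h2, div_self (pow_ne_zero _ hsLne)]
  obtain ⟨c, hc⟩ := root_const (M := w.RF) hζ hn h3
  have hcK : v.Reg (algebraMap k K (c : k) * s) := v.reg_mul (v.reg_const _) hs
  set s' := algebraMap K L (algebraMap k K (c : k) * s) with hs'
  have hs'r : w.Reg s' := hov.reg.2 hcK
  have h4 : w.red z = w.red s' := by
    rw [hs', map_mul, ← IsScalarTower.algebraMap_apply k K L, w.red_mul (w.reg_const _) hsL,
      ← w.algebraMap_RF, ← hc, div_mul_cancel₀ _ hsLne]
  have hσs : σ s' = s' := by rw [hs', AlgEquiv.commutes]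
  have hreg : w.Reg (z - s') := by
    rw [sub_eq_add_neg]
    exact w.reg_add hzr (w.reg_neg hs'r)
  have h5 : w.red (z - s') = 0 := by rw [w.red_sub hzr hs'r, h4, sub_self]
  have h6 := (w.red_eq_zero_iff hreg).1 h5
  have hσo : w.ord (σ z) = 0 := by
    rw [← cj_ord, hσ]
    exact hzo
  have hσr : w.Reg (σ z) := Or.inr hσo.ge
  have hreg' : w.Reg (σ z - s') := by
    rw [sub_eq_add_neg]
    exact w.reg_add hσr (w.reg_neg hs'r)
  have h7 : w.red (σ z - s') = 0 := by
    rw [w.red_eq_zero_iff hreg']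
    have e1 : σ z - s' = σ (z - s') := by rw [map_sub, hσs]
    rcases h6 with h6 | h6
    · left
      rw [e1, h6, map_zero]
    · right
      rw [e1, ← cj_ord, hσ]
      exact h6
  rw [w.red_sub hσr hs'r, ← h4, sub_eq_zero] at h7
  have hzroot : z ^ orderOf χ = algebraMap K L ((f * h ^ orderOf χ : Kˣ) : K) := by
    rw [hz, hu, Units.val_mul, Units.val_pow_eq_pow_val]
  have h8 := kap_spec hζ hn σ (f * h ^ orderOf χ) hzroot
  rw [h8, w.red_mul (w.reg_const _) hzr, ← w.algebraMap_RF] at h7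
  have h9 : algebraMap k w.RF (kap hζ hn σ (f * h ^ orderOf χ) : k) = 1 :=
    mul_right_cancel₀ (w.red_ne_zero hz0 hzo) (by rw [h7, one_mul])
  have h10 : kap hζ hn σ (f * h ^ orderOf χ) = 1 := by
    apply Units.ext
    apply (algebraMap k w.RF).injective
    rw [h9, Units.val_one, map_one]
  rw [kap_mul hζ hn σ ⟨y, hy⟩ (hasRoot_pow h), kap_pow, mul_one] at h10
  exact h10

/-- the residue degree kills the value of the character -/
lemma Ev_pow_res (χ : MulChar k ℂ) {v : Place k K} {w : Place k L} {e ρ : ℕ}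
    (hov : Over w v e) (hρ : w.deg = v.deg * ρ) {f : Kˣ}
    (hr : HasRoot L (orderOf χ) f) (hf : (orderOf χ : ℤ) ∣ v.ord (f : K)) :
    Ev χ v f ^ ρ = 1 := by
  have hn : 0 < orderOf χ := orderOf_pos χ
  obtain ⟨y, hy⟩ := hr
  obtain ⟨h, hu, hz, hzo, hz0⟩ := exists_unit_root hn hov hf hy
  set u := upart v (f : K) with hudef
  set z := y * algebraMap K L (h : K) with hzdef
  have hu0 : v.ord u = 0 := upart_ord v f.ne_zero
  have hune : u ≠ 0 := upart_ne v f.ne_zero
  have hzr : w.Reg z := Or.inr hzo.ge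
  have hfin : Module.Finite k v.RF := Module.finite_of_finrank_pos (deg_pos' v)
  have hfinw : Module.Finite k w.RF := Module.finite_of_finrank_pos (deg_pos' w)
  letI : Algebra v.RF w.RF := hov.resMap.toRingHom.toAlgebra
  have hst : IsScalarTower k v.RF w.RF := IsScalarTower.of_algebraMap_eq fun c =>
    (hov.resMap.commutes c).symm
  have hfr : Module.finrank v.RF w.RF = ρ := by
    have h1 := Module.finrank_mul_finrank k v.RF w.RF
    have h2 : v.deg * Module.finrank v.RF w.RF = v.deg * ρ := by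
      rw [← hρ]
      exact h1
    exact Nat.eq_of_mul_eq_mul_left (deg_pos' v) h2
  have hfin2 : Module.Finite v.RF w.RF := Module.Finite.of_restrictScalars_finite k v.RF w.RF
  have h1 : Algebra.norm k (algebraMap v.RF w.RF (v.red u)) = Algebra.norm k (v.red u) ^ ρ := by
    rw [← Algebra.norm_norm (R := k) (S := v.RF) (A := w.RF), Algebra.norm_algebraMap, map_pow, hfr]
  have h2 : algebraMap v.RF w.RF (v.red u) = w.red z ^ orderOf χ := by
    rw [← w.red_pow hzr, hz, ← hov.resMap_red (Or.inr hu0.ge)]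
    rfl
  show χ (normRed v u) ^ ρ = 1
  rw [normRed_eq, ← map_pow, ← h1, h2, map_pow, map_pow]
  apply pow_unit
  rw [Ne, Algebra.norm_eq_zero_iff]
  exact w.red_ne_zero hz0 hzo

/-- the ramification index kills the valuation modulo `n` -/
lemma ord_dvd_ram {n : ℕ} {v : Place k K} {w : Place k L} {e : ℕ}
    (hov : Over w v e) {f : Kˣ} (hr : HasRoot L n f) : (n : ℤ) ∣ e * v.ord (f : K) := by
  obtain ⟨y, hy⟩ := hr
  have h1 := hov.2 (f : K)
  rw [← hy, w.ord_pow] at h1
  exact ⟨_, h1.symm⟩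

end Pool.Agent.J4.H70.FF
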