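import Pool.Agent.W343.BSD.Kida
import Pool.Agent.Y18.LP.TupA

/-!
Euler products twisted by families of characters: the values at a point are good functions of the
character.
-/

set_option autoImplicit false
set_option linter.all false

open Module Polynomial

namespace Pool.Agent.J4.H70.FF

open Pool.Agent.W343.BSD Pool.Agent.Y18.LP

section lf

variable {A B : Type} [CommRing A] [CommRing B]

/-- the local factor `P(c T ^ m)` -/
noncomputable def lf (P : ℤ[X]) (c : A) (m : ℕ) : A[X] :=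
  (P.map (Int.castRingHom A)).comp (C c * X ^ m)

lemma lf_map (φ : A →+* B) (P : ℤ[X]) (c : A) (m : ℕ) : (lf P c m).map φ = lf P (φ c) m := by
  unfold lf
  rw [Polynomial.map_comp, Polynomial.map_map, Polynomial.map_mul, Polynomial.map_C,
    Polynomial.map_pow, Polynomial.map_X]
  congr 2
  exact RingHom.ext_int _ _

lemma lf_zero {P : ℤ[X]} (hP : P.coeff 0 = 1) (m : ℕ) : lf P (0 : A) m = 1 := by
  unfold lf
  rw [C_0, zero_mul, comp_zero, ← Polynomial.coeff_zero_eq_eval_zero, Polynomial.coeff_map, hP,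
    map_one, C_1]

lemma lf_eval (P : ℤ[X]) (c : A) (m : ℕ) (t : A) :
    (lf P c m).eval t = (P.map (Int.castRingHom A)).eval (c * t ^ m) := by
  unfold lf
  rw [eval_comp, eval_mul, eval_C, eval_pow, eval_X]

lemma lf_mod {P : ℤ[X]} (hP : P.coeff 0 = 1) (c : A) (m : ℕ) :
    (PowerSeries.X : PowerSeries A) ^ m ∣ (lf P c m : PowerSeries A) - 1 := by
  have h1 : (X ^ m : A[X]) ∣ lf P c m - 1 := by
    have h2 : (C c * X ^ m : A[X]) - 0 ∣ (P.map (Int.castRingHom A)).comp (C c * X ^ m) -
        (P.map (Int.castRingHom A)).comp 0 := by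
      have h3 := Polynomial.sub_dvd_eval_sub (C c * X ^ m : A[X]) 0
        ((P.map (Int.castRingHom A)).map C)
      rw [← Polynomial.eval₂_eq_eval_map, ← Polynomial.eval₂_eq_eval_map] at h3
      exact h3
    have h4 : (P.map (Int.castRingHom A)).comp 0 = 1 := by
      have := lf_zero (A := A) hP m
      unfold lf at this
      rwa [C_0, zero_mul] at this
    rw [h4, sub_zero] at h2
    exact (dvd_mul_left _ _).trans h2
  obtain ⟨y, hy⟩ := h1
  refine ⟨(y : PowerSeries A), ?_⟩
  have := congrArg (fun p : A[X] => (p : PowerSeries A)) hy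
  simp only [Polynomial.coe_sub, Polynomial.coe_one, Polynomial.coe_mul, Polynomial.coe_pow,
    Polynomial.coe_X] at this
  exact this

lemma lf_const {P : ℤ[X]} (hP : P.coeff 0 = 1) (c : A) {m : ℕ} (hm : 0 < m) :
    PowerSeries.constantCoeff (lf P c m : PowerSeries A) = 1 := by
  have h1 : (PowerSeries.X : PowerSeries A) ∣ (lf P c m : PowerSeries A) - 1 :=
    (dvd_pow_self _ hm.ne').trans (lf_mod hP c m)
  rwa [PowerSeries.X_dvd_iff, map_sub, map_one, sub_eq_zero] at h1

lemma lf_inv {P : ℤ[X]} (hP : P.coeff 0 = 1) (c : A) {m : ℕ} (hm : 0 < m) :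
    (lf P c m : PowerSeries A) * PowerSeries.invOfUnit (lf P c m : PowerSeries A) 1 = 1 := by
  apply PowerSeries.mul_invOfUnit
  rw [lf_const hP c hm, Units.val_one]

lemma lf_invmod {P : ℤ[X]} (hP : P.coeff 0 = 1) (c : A) {m : ℕ} (hm : 0 < m) :
    (PowerSeries.X : PowerSeries A) ^ m ∣
      PowerSeries.invOfUnit (lf P c m : PowerSeries A) 1 - 1 := by
  obtain ⟨y, hy⟩ := lf_mod hP c m
  have h1 := lf_inv hP c hm
  exact ⟨-(y * PowerSeries.invOfUnit (lf P c m : PowerSeries A) 1), by
    linear_combination h1 - PowerSeries.invOfUnit (lf P c m : PowerSeries A) 1 * hy⟩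

lemma inv_unique {f g h : PowerSeries A} (h1 : f * g = 1) (h2 : f * h = 1) : g = h := by
  linear_combination h * h1 - g * h2

lemma lf_invzero {P : ℤ[X]} (hP : P.coeff 0 = 1) {m : ℕ} (hm : 0 < m) :
    PowerSeries.invOfUnit (lf P (0 : A) m : PowerSeries A) 1 = 1 := by
  have h1 := lf_inv (A := A) hP 0 hm
  rw [lf_zero hP, Polynomial.coe_one, one_mul] at h1
  rw [lf_zero hP, Polynomial.coe_one]
  exact h1

lemma lf_invmap (φ : A →+* B) {P : ℤ[X]} (hP : P.coeff 0 = 1) (c : A) {m : ℕ} (hm : 0 < m) :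
    PowerSeries.map φ (PowerSeries.invOfUnit (lf P c m : PowerSeries A) 1) =
      PowerSeries.invOfUnit (lf P (φ c) m : PowerSeries B) 1 := by
  have h1 := congrArg (PowerSeries.map φ) (lf_inv hP c hm)
  rw [map_mul, map_one, ← Polynomial.polynomial_map_coe, lf_map] at h1
  exact inv_unique h1 (lf_inv hP (φ c) hm)

end lf

section LS

variable {J : Type} {A B : Type} [CommRing A] [CommRing B]

/-- the Euler product -/
noncomputable def LS (d : J → ℕ) (P : J → ℤ[X]) (c : J → A) : PowerSeries A :=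
  eulerProd d (fun v => PowerSeries.invOfUnit (lf (P v) (c v) (d v) : PowerSeries A) 1)

variable {d : J → ℕ} (hd : ∀ v, 0 < d v) (hfin : ∀ n, {v | d v ≤ n}.Finite) {P : J → ℤ[X]}
  (hP : ∀ v, (P v).coeff 0 = 1)

include hd hfin hP

lemma LS_map (φ : A →+* B) (c : J → A) :
    PowerSeries.map φ (LS d P c) = LS d P (fun v => φ (c v)) := by
  unfold LS
  rw [map_eulerProd hfin]
  congr 1
  funext v
  exact lf_invmap φ (hP v) (c v) (hd v)

/-- removing the factors in a finite set -/
lemma LS_remove (c c' : J → A) (S : Finset J) (h : ∀ v, v ∉ S → c v = c' v)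
    (h0 : ∀ v ∈ S, c v = 0) :
    LS d P c = LS d P c' * ((∏ v ∈ S, lf (P v) (c' v) (d v) : A[X]) : PowerSeries A) := by
  classical
  have key := fin_factor' hfin (fun v => lf_invmod (hP v) (c v) (hd v))
    (fun v => lf_invmod (hP v) (c' v) (hd v)) S (fun v hv => by rw [h v hv])
  have h1 : ∏ v ∈ S, PowerSeries.invOfUnit (lf (P v) (c v) (d v) : PowerSeries A) 1 = 1 := by
    refine Finset.prod_eq_one fun v hv => ?_
    rw [h0 v hv]
    exact lf_invzero (hP v) (hd v)
  rw [h1, mul_one] at key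
  have h2 : (∏ v ∈ S, PowerSeries.invOfUnit (lf (P v) (c' v) (d v) : PowerSeries A) 1) *
      ((∏ v ∈ S, lf (P v) (c' v) (d v) : A[X]) : PowerSeries A) = 1 := by
    have h3 : ((∏ v ∈ S, lf (P v) (c' v) (d v) : A[X]) : PowerSeries A) =
        ∏ v ∈ S, (lf (P v) (c' v) (d v) : PowerSeries A) := by
      rw [← Polynomial.coeToPowerSeries.ringHom_apply, map_prod]
      rfl
    rw [h3, ← Finset.prod_mul_distrib]
    refine Finset.prod_eq_one fun v _ => ?_
    rw [mul_comm]
    exact lf_inv (hP v) (c' v) (hd v)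
  unfold LS
  linear_combination (((∏ v ∈ S, lf (P v) (c' v) (d v) : A[X]) : PowerSeries A)) * key -
    (eulerProd d (fun v => PowerSeries.invOfUnit (lf (P v) (c v) (d v) : PowerSeries A) 1)) * h2

end LS

end Pool.Agent.J4.H70.FF
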