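import Pool.Agent.J4.H70.FF.Dec2

/-!
The number of places over a place in a Kummer extension.
-/

set_option autoImplicit false
set_option linter.all false

open FF Module Polynomial

namespace Pool.Agent.J4.H70.FF

open Pool.Agent.W343.BSD Pool.Agent.H123R3.ZT Pool.Agent.W313.Gr Pool.Agent.TH639.CK

/-- counting with fibres -/
lemma card_le_ker {C M : Type} [CommGroup C] [Monoid M] (B : Subgroup C) (hB : (B : Set C).Finite)
    (φ : C →* M) (T : Set M) (hT : T.Finite) (h : ∀ b ∈ B, φ b ∈ T) :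
    Nat.card B ≤ Nat.card (B ⊓ φ.ker : Subgroup C) * T.ncard := by
  classical
  have hBf : Finite B := hB
  have hKf : ((B ⊓ φ.ker : Subgroup C) : Set C).Finite := hB.subset fun x hx => hx.1
  have hKf' : Finite (B ⊓ φ.ker : Subgroup C) := hKf
  have h1 : Nat.card B = hB.toFinset.card := by
    rw [← Set.ncard_eq_toFinset_card _ hB, ← Nat.card_coe_set_eq]
    rfl
  have h2 : Nat.card (B ⊓ φ.ker : Subgroup C) = hKf.toFinset.card := by
    rw [← Set.ncard_eq_toFinset_card _ hKf, ← Nat.card_coe_set_eq]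
    rfl
  have h3 : hB.toFinset.card ≤ hKf.toFinset.card * (hB.toFinset.image φ).card := by
    refine Finset.card_le_mul_card_image hB.toFinset _ fun x hx => ?_
    rw [Finset.mem_image] at hx
    obtain ⟨b0, hb0, rfl⟩ := hx
    rw [Set.Finite.mem_toFinset] at hb0
    refine Finset.card_le_card_of_injOn (fun b => b * b0⁻¹) ?_ ?_
    · intro b hb
      rw [Finset.mem_coe, Finset.mem_filter, Set.Finite.mem_toFinset] at hb
      rw [Finset.mem_coe, Set.Finite.mem_toFinset]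
      refine ⟨B.mul_mem hb.1 (B.inv_mem hb0), ?_⟩
      show φ (b * b0⁻¹) = 1
      rw [map_mul, hb.2, ← map_mul, mul_inv_cancel, map_one]
    · intro b _ b' _ hbb
      exact mul_right_cancel hbb
  have h4 : (hB.toFinset.image φ).card ≤ T.ncard := by
    rw [Set.ncard_eq_toFinset_card _ hT]
    refine Finset.card_le_card fun x hx => ?_
    rw [Finset.mem_image] at hx
    obtain ⟨b, hb, rfl⟩ := hx
    rw [Set.Finite.mem_toFinset] at hb ⊢
    exact h b hb
  rw [h1, h2]
  exact h3.trans (Nat.mul_le_mul_left _ h4)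

lemma card_tors {n e : ℕ} (hn : 0 < n) (he : 0 < e) :
    ({a : Multiplicative (ZMod n) | a ^ e = 1}).Finite ∧
      ({a : Multiplicative (ZMod n) | a ^ e = 1}).ncard ≤ e := by
  classical
  have : NeZero n := ⟨hn.ne'⟩
  have hfin : ({a : Multiplicative (ZMod n) | a ^ e = 1}).Finite := Set.toFinite _
  refine ⟨hfin, ?_⟩
  have h1 := IsCyclic.card_pow_eq_one_le (α := Multiplicative (ZMod n)) he
  rw [Set.ncard_eq_toFinset_card _ hfin]
  refine le_trans (Finset.card_le_card fun a ha => ?_) h1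
  rw [Set.Finite.mem_toFinset] at ha
  rw [Finset.mem_filter]
  exact ⟨Finset.mem_univ _, ha⟩

lemma card_rootsC {ρ : ℕ} (hρ : 0 < ρ) :
    ({z : ℂ | z ^ ρ = 1}).Finite ∧ ({z : ℂ | z ^ ρ = 1}).ncard ≤ ρ := by
  classical
  refine ⟨roots_fin hρ, ?_⟩
  rw [Set.ncard_eq_toFinset_card _ (roots_fin hρ)]
  refine le_trans (Finset.card_le_card (t := (Polynomial.nthRoots ρ (1 : ℂ)).toFinset)
    fun a ha => ?_) ((Multiset.toFinset_card_le _).trans (Polynomial.card_nthRoots ρ 1))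
  rw [Set.Finite.mem_toFinset] at ha
  rw [Multiset.mem_toFinset, Polynomial.mem_nthRoots hρ]
  exact ha

variable {k K L : Type} [Field k] [Finite k] [Field K] [Algebra k K] [FF.IsFF k K] [Field L]
  [Algebra k L] [Algebra K L] [IsScalarTower k K L] [FF.IsFF k L]

/-- the group of the classes of `G` -/
noncomputable def Bg (n : ℕ) (G : Subgroup Kˣ) : Subgroup (Cl n K) := G.map (cl n)

lemma mem_Bg {n : ℕ} {G : Subgroup Kˣ} {b : Cl n K} : b ∈ Bg n G ↔ ∃ f ∈ G, cl n f = b :=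
  Subgroup.mem_map

/-- `L` is the extension of `K` generated by the `n`-th roots of the elements of `G` -/
structure IsKum (n : ℕ) (G : Subgroup Kˣ) (L : Type) [Field L] [Algebra K L] : Prop where
  fin : FiniteDimensional K L
  galois : IsGalois K L
  degree : finrank K L = Nat.card (Bg n G)
  root : ∀ f ∈ G, HasRoot L n f
  gen : IntermediateField.adjoin K {y : L | ∃ f ∈ G, y ^ n = algebraMap K L (f : K)} = ⊤

/-- the valuation modulo `n` -/
noncomputable def ordC (n : ℕ) (v : Place k K) : Cl n K →* Multiplicative (ZMod n) :=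
  liftC
    { toFun := fun f : Kˣ => Multiplicative.ofAdd ((v.ord (f : K) : ℤ) : ZMod n)
      map_one' := by rw [Units.val_one, v.ord_one]; simp
      map_mul' := fun f g => by
        rw [Units.val_mul, v.ord_mul f.ne_zero g.ne_zero, Int.cast_add, ofAdd_add] }
    (fun g => by
      show Multiplicative.ofAdd ((v.ord ((g ^ n : Kˣ) : K) : ℤ) : ZMod n) = 1
      rw [Units.val_pow_eq_pow_val, v.ord_pow]
      simp)

omit [Finite k] [FF.IsFF k K] in
lemma ordC_mk (n : ℕ) (v : Place k K) (f : Kˣ) :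
    ordC n v (cl n f) = Multiplicative.ofAdd ((v.ord (f : K) : ℤ) : ZMod n) := rfl

lemma mem_ker_ordC {n : ℕ} (v : Place k K) (b : Cl n K) : b ∈ (ordC n v).ker ↔ v ∉ ramC k b := by
  obtain ⟨f, rfl⟩ := cl_surj b
  rw [mem_ramC, not_not, MonoidHom.mem_ker, ordC_mk, ← ofAdd_zero,
    Multiplicative.ofAdd.injective.eq_iff, ZMod.intCast_zmod_eq_zero_iff_dvd]

section kB
variable {n : ℕ} {G : Subgroup Kˣ}

omit [FF.IsFF k K] [FF.IsFF k L] [IsScalarTower k K L] in
lemma hasRoot_out (hr : ∀ f ∈ G, HasRoot L n f) {b : Cl n K} (hb : b ∈ Bg n G) :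
    HasRoot L n (rep b) := by
  obtain ⟨f, hf, rfl⟩ := mem_Bg.1 hb
  obtain ⟨g, hg⟩ := rep_cl (n := n) f
  rw [hg]
  exact hasRoot_mul (hr f hf) (hasRoot_pow g)

variable {ζ : k} (hζ : IsPrimitiveRoot ζ n) (hn : 0 < n)

omit [FF.IsFF k K] [FF.IsFF k L] in
lemma kap_out (σ : L ≃ₐ[K] L) {f : Kˣ} (hf : HasRoot L n f) :
    kap hζ hn σ (rep (cl n f)) = kap hζ hn σ f := by
  obtain ⟨g, hg⟩ := rep_cl (n := n) f
  rw [hg, kap_mul hζ hn σ hf (hasRoot_pow g), kap_pow, mul_one]

/-- the pairing on classes -/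
noncomputable def kapB (hr : ∀ f ∈ G, HasRoot L n f) (σ : L ≃ₐ[K] L) : Bg n G →* kˣ where
  toFun b := kap hζ hn σ (rep (b : Cl n K))
  map_one' := by
    have h1 : ((1 : Bg n G) : Cl n K) = cl n (1 ^ n : Kˣ) := by
      rw [cl_pow]; rfl
    rw [h1, kap_out hζ hn σ (hasRoot_pow 1), kap_pow]
  map_mul' b c := by
    obtain ⟨f, hf, hfb⟩ := mem_Bg.1 b.2
    obtain ⟨g, hg, hgc⟩ := mem_Bg.1 c.2
    have h1 : ((b * c : Bg n G) : Cl n K) = cl n (f * g) := by
      rw [Subgroup.coe_mul, ← hfb, ← hgc, map_mul]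
    rw [h1, ← hfb, ← hgc, kap_out hζ hn σ (hasRoot_mul (hr f hf) (hr g hg)),
      kap_out hζ hn σ (hr f hf), kap_out hζ hn σ (hr g hg),
      kap_mul hζ hn σ (hr f hf) (hr g hg)]

omit [FF.IsFF k K] [FF.IsFF k L] in
lemma kapB_apply (hr : ∀ f ∈ G, HasRoot L n f) (σ : L ≃ₐ[K] L) {f : Kˣ} (hf : f ∈ G)
    (b : Bg n G) (hb : cl n f = b) : kapB hζ hn hr σ b = kap hζ hn σ f := by
  show kap hζ hn σ (rep (b : Cl n K)) = _
  rw [← hb, kap_out hζ hn σ (hr f hf)]

omit [FF.IsFF k K] [FF.IsFF k L] in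
lemma kapB_inj (hr : ∀ f ∈ G, HasRoot L n f)
    (hgen : IntermediateField.adjoin K {y : L | ∃ f ∈ G, y ^ n = algebraMap K L (f : K)} = ⊤) :
    Function.Injective (kapB hζ hn hr : (L ≃ₐ[K] L) → (Bg n G →* kˣ)) := by
  intro σ τ h
  have h1 : ∀ f ∈ G, ∀ y : L, y ^ n = algebraMap K L (f : K) → σ y = τ y := by
    intro f hf y hy
    have h2 := DFunLike.congr_fun h ⟨cl n f, mem_Bg.2 ⟨f, hf, rfl⟩⟩
    rw [kapB_apply hζ hn hr σ hf _ rfl, kapB_apply hζ hn hr τ hf _ rfl] at h2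
    rw [kap_spec hζ hn σ f hy, kap_spec hζ hn τ f hy, h2]
  have h2 : IntermediateField.adjoin K {y : L | ∃ f ∈ G, y ^ n = algebraMap K L (f : K)} ≤
      IntermediateField.fixedField (Subgroup.zpowers (τ⁻¹ * σ)) := by
    rw [IntermediateField.adjoin_le_iff]
    rintro y ⟨f, hf, hy⟩
    rw [SetLike.mem_coe, IntermediateField.mem_fixedField_iff]
    intro g hg
    have hfix : (τ⁻¹ * σ) y = y := by
      show τ⁻¹ (σ y) = y
      rw [h1 f hf y hy]
      exact τ.symm_apply_apply y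
    have hsub : Subgroup.zpowers (τ⁻¹ * σ) ≤ MulAction.stabilizer (L ≃ₐ[K] L) y := by
      rw [Subgroup.zpowers_le]
      exact hfix
    exact hsub hg
  rw [hgen, top_le_iff] at h2
  have h3 : ∀ y : L, (τ⁻¹ * σ) y = y := by
    intro y
    have h4 : y ∈ IntermediateField.fixedField (Subgroup.zpowers (τ⁻¹ * σ)) := by
      rw [h2]
      exact IntermediateField.mem_top
    rw [IntermediateField.mem_fixedField_iff] at h4
    exact h4 _ (Subgroup.mem_zpowers _)
  apply AlgEquiv.ext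
  intro y
  have h4 := h3 y
  have h5 : τ⁻¹ (σ y) = y := h4
  have h6 := congrArg τ h5
  rw [← h6]
  exact (τ.apply_symm_apply _).symm

end kB

end Pool.Agent.J4.H70.FF
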