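import Pool.Agent.J4.H70.FF.Fib

/-!
The Euler factors over a place in a Kummer extension.
-/

set_option autoImplicit false
set_option linter.all false
set_option maxHeartbeats 4000000

open FF Module Polynomial

namespace Pool.Agent.J4.H70.FF

open Pool.Agent.W343.BSD Pool.Agent.H123R3.ZT Pool.Agent.W313.Gr Pool.Agent.TH639.CK

section cnt

variable {k K L : Type} [Field k] [Finite k] [Field K] [Algebra k K] [FF.IsFF k K] [Field L]
  [Algebra k L] [Algebra K L] [IsScalarTower k K L] [FF.IsFF k L]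

/-- the unramified classes -/
noncomputable def Ug {n : ℕ} (G : Subgroup Kˣ) (v : Place k K) : Subgroup (Cl n K) :=
  Bg n G ⊓ (ordC n v).ker

/-- the split classes -/
noncomputable def Ag (χ : MulChar k ℂ) (G : Subgroup Kˣ) (v : Place k K) :
    Subgroup (Cl (orderOf χ) K) := Ug G v ⊓ (EvC χ v).ker

theorem fib_count (χ : MulChar k ℂ) {G : Subgroup Kˣ} (hL : IsKum (orderOf χ) G L)
    {v : Place k K} {S : Finset (Place k L)} {e ρ : ℕ} (D : GaloisFiber v S e ρ) :
    0 < ρ ∧ ((Bg (orderOf χ) G : Subgroup (Cl (orderOf χ) K)) : Set (Cl (orderOf χ) K)).Finite ∧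
    (∀ b ∈ (Ug G v : Subgroup (Cl (orderOf χ) K)), EvC χ v b ^ ρ = 1) ∧
      Nat.card (Ug G v : Subgroup (Cl (orderOf χ) K)) = Nat.card (Ag χ G v) * ρ ∧
      Nat.card (Ag χ G v) = S.card := by
  classical
  have hn : 0 < orderOf χ := orderOf_pos χ
  obtain ⟨ζ, hζ⟩ := exists_primitive χ
  have hfd := hL.fin
  have hgal := hL.galois
  have hpos : 0 < finrank K L := finrank_pos
  have hBpos : 0 < Nat.card (Bg (orderOf χ) G) := by
    rw [← hL.degree]; exact hpos
  have hBf : Finite (Bg (orderOf χ) G) := Nat.finite_of_card_ne_zero hBpos.ne'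
  have hBfin : ((Bg (orderOf χ) G : Subgroup (Cl (orderOf χ) K)) :
      Set (Cl (orderOf χ) K)).Finite := hBf
  have hmul := D.mul
  have hepos : 0 < e := by
    rcases Nat.eq_zero_or_pos e with h | h
    · rw [h, zero_mul, mul_zero] at hmul
      omega
    · exact h
  have hρpos : 0 < ρ := by
    rcases Nat.eq_zero_or_pos ρ with h | h
    · rw [h, mul_zero, mul_zero] at hmul
      omega
    · exact h
  obtain ⟨w, hw⟩ := D.nonempty
  have hov := D.isOver w hw
  -- ramification
  have c1 : Nat.card (Bg (orderOf χ) G) ≤ Nat.card (Ug G v : Subgroup (Cl (orderOf χ) K)) * e := by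
    obtain ⟨t1, t2⟩ := card_tors hn hepos
    refine (card_le_ker (Bg (orderOf χ) G) hBfin (ordC (orderOf χ) v) _ t1 ?_).trans
      (Nat.mul_le_mul_left _ t2)
    intro b hb
    obtain ⟨f, hf, rfl⟩ := mem_Bg.1 hb
    have h1 := ord_dvd_ram hov (hL.root f hf)
    rw [Set.mem_setOf_eq, ordC_mk, ← ofAdd_nsmul, ← ofAdd_zero, Multiplicative.ofAdd.injective.eq_iff, nsmul_eq_mul]
    have h2 : ((e : ZMod (orderOf χ)) * ((v.ord (f : K) : ℤ) : ZMod (orderOf χ))) =
        ((e * v.ord (f : K) : ℤ) : ZMod (orderOf χ)) := by push_cast; ring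
    rw [h2, ZMod.intCast_zmod_eq_zero_iff_dvd]
    exact h1
  have hUfin : ((Ug G v : Subgroup (Cl (orderOf χ) K)) : Set (Cl (orderOf χ) K)).Finite :=
    hBfin.subset fun x hx => hx.1
  -- residue degree
  have hEv : ∀ b ∈ (Ug G v : Subgroup (Cl (orderOf χ) K)), EvC χ v b ^ ρ = 1 := by
    intro b hb
    obtain ⟨hb1, hb2⟩ := Subgroup.mem_inf.1 hb
    obtain ⟨f, hf, rfl⟩ := mem_Bg.1 hb1
    rw [mem_ker_ordC, mem_ramC, not_not] at hb2
    rw [EvC_mk]
    exact Ev_pow_res χ hov (D.deg w hw) (hL.root f hf) hb2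
  have c2 : Nat.card (Ug G v : Subgroup (Cl (orderOf χ) K)) ≤ Nat.card (Ag χ G v) * ρ := by
    obtain ⟨t1, t2⟩ := card_rootsC hρpos
    exact (card_le_ker (Ug G v) hUfin (EvC χ v) _ t1 hEv).trans (Nat.mul_le_mul_left _ t2)
  -- decomposition group
  have c3 : Nat.card (Ag χ G v) ≤ S.card := by
    set Dw : Finset (L ≃ₐ[K] L) := Finset.univ.filter fun σ => cj σ w = w with hDw
    have hgalcard : Fintype.card (L ≃ₐ[K] L) = Nat.card (Bg (orderOf χ) G) := by
      rw [← Nat.card_eq_fintype_card, IsGalois.card_aut_eq_finrank, hL.degree]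
    -- the number of automorphisms
    have h1 : Fintype.card (L ≃ₐ[K] L) ≤ S.card * Dw.card := by
      have h2 : (Finset.univ : Finset (L ≃ₐ[K] L)).card ≤ Dw.card *
          ((Finset.univ : Finset (L ≃ₐ[K] L)).image fun σ => cj σ w).card := by
        refine Finset.card_le_mul_card_image _ _ fun w' hw' => ?_
        rw [Finset.mem_image] at hw'
        obtain ⟨σ0, -, rfl⟩ := hw'
        refine Finset.card_le_card_of_injOn (fun σ => σ * σ0⁻¹) ?_ ?_
        · intro σ hσ
          rw [Finset.mem_coe, Finset.mem_filter] at hσ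
          rw [Finset.mem_coe, hDw, Finset.mem_filter]
          refine ⟨Finset.mem_univ _, ?_⟩
          have h3 := congrArg (cj σ0⁻¹) hσ.2
          rw [cj_mul, cj_mul, mul_inv_cancel] at h3
          exact h3
        · intro σ _ τ _ h
          exact mul_right_cancel h
      have h3 : ((Finset.univ : Finset (L ≃ₐ[K] L)).image fun σ => cj σ w) ⊆ S := by
        intro w' hw'
        rw [Finset.mem_image] at hw'
        obtain ⟨σ, -, rfl⟩ := hw'
        exact D.mem _ _ (over_cj hov σ)
      rw [Finset.card_univ] at h2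
      rw [mul_comm]
      exact h2.trans (Nat.mul_le_mul_left _ (Finset.card_le_card h3))
    -- the decomposition group
    have hAB : Ag χ G v ≤ Bg (orderOf χ) G := inf_le_left.trans inf_le_left
    have h2 : Dw.card * Nat.card (Ag χ G v) ≤ Nat.card (Bg (orderOf χ) G) := by
      have h3 := card_hom_sub ((Ag χ G v).subgroupOf (Bg (orderOf χ) G)) k
      have h4 : Nat.card ((Ag χ G v).subgroupOf (Bg (orderOf χ) G)) = Nat.card (Ag χ G v) :=
        Nat.card_congr (Subgroup.subgroupOfEquivOfLe hAB).toEquiv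
      rw [h4] at h3
      refine le_trans (Nat.mul_le_mul_right _ ?_) h3
      have h5 : Dw.card = Nat.card Dw := by rw [Nat.card_eq_fintype_card, Fintype.card_coe]
      obtain ⟨hf1, -⟩ := card_hom_le (C := Bg (orderOf χ) G) k
      rw [h5]
      refine Nat.card_le_card_of_injective (fun σ : Dw => (⟨kapB hζ hn hL.root σ.1, ?_⟩ :
        {φ : Bg (orderOf χ) G →* kˣ // ∀ a ∈ (Ag χ G v).subgroupOf (Bg (orderOf χ) G),
          φ a = 1})) ?_
      · intro a ha
        rw [Subgroup.mem_subgroupOf] at ha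
        obtain ⟨f, hf, hfa⟩ := mem_Bg.1 a.2
        obtain ⟨ha1, ha2⟩ := Subgroup.mem_inf.1 ha
        obtain ⟨-, ha3⟩ := Subgroup.mem_inf.1 ha1
        rw [← hfa, mem_ker_ordC, mem_ramC, not_not] at ha3
        rw [← hfa, MonoidHom.mem_ker, EvC_mk] at ha2
        have hσ := (Finset.mem_filter.1 σ.2).2
        rw [kapB_apply hζ hn hL.root σ.1 hf a hfa]
        exact kap_dec χ hζ hov hσ (hL.root f hf) ha3 ha2
      · intro σ τ h
        apply Subtype.ext
        exact kapB_inj hζ hn hL.root hL.gen (congrArg Subtype.val h)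
    have hDpos : 0 < Dw.card := by
      rw [Finset.card_pos]
      exact ⟨1, by
        rw [hDw, Finset.mem_filter]
        exact ⟨Finset.mem_univ _, rfl⟩⟩
    have h6 : Dw.card * Nat.card (Ag χ G v) ≤ Dw.card * S.card := by
      calc _ ≤ Nat.card (Bg (orderOf χ) G) := h2
        _ ≤ S.card * Dw.card := by rw [← hgalcard]; exact h1
        _ = _ := mul_comm _ _
    exact Nat.le_of_mul_le_mul_left h6 hDpos
  -- all inequalities are equalities
  have h7 : Nat.card (Bg (orderOf χ) G) = S.card * (e * ρ) := by rw [← hL.degree, hmul]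
  have hx : Nat.card (Ag χ G v) = S.card := by
    apply le_antisymm c3
    have h8 : S.card * (e * ρ) ≤ Nat.card (Ag χ G v) * (e * ρ) := by
      calc S.card * (e * ρ) = Nat.card (Bg (orderOf χ) G) := h7.symm
        _ ≤ Nat.card (Ug G v : Subgroup (Cl (orderOf χ) K)) * e := c1
        _ ≤ (Nat.card (Ag χ G v) * ρ) * e := Nat.mul_le_mul_right _ c2
        _ = _ := by ring
    exact Nat.le_of_mul_le_mul_right h8 (Nat.mul_pos hepos hρpos)
  refine ⟨hρpos, hBfin, hEv, ?_, hx⟩
  apply le_antisymm c2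
  have h9 : (Nat.card (Ag χ G v) * ρ) * e ≤
      Nat.card (Ug G v : Subgroup (Cl (orderOf χ) K)) * e := by
    calc (Nat.card (Ag χ G v) * ρ) * e = S.card * (e * ρ) := by rw [hx]; ring
      _ = Nat.card (Bg (orderOf χ) G) := h7.symm
      _ ≤ _ := c1
  exact Nat.le_of_mul_le_mul_right h9 hepos

end cnt

end Pool.Agent.J4.H70.FF
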