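import Pool.Agent.J4.H70.FF.Fib2

/-!
The product formula for the `L`-functions in Kummer extensions.
-/

set_option autoImplicit false
set_option linter.all false
set_option maxHeartbeats 4000000

open FF Module Polynomial

namespace Pool.Agent.J4.H70.FF

open Pool.Agent.W343.BSD Pool.Agent.H123R3.ZT Pool.Agent.W313.Gr Pool.Agent.TH639.CK

section fac

/-- the product of `1 - α ^ ρ T ^ m` over the inverses `α` of the roots of `P` -/
noncomputable def facR (P : ℤ[X]) (ρ m : ℕ) : ℂ[X] :=
  ((P.map (Int.castRingHom ℂ)).roots.map fun r => (1 - C (r⁻¹ ^ ρ) * X ^ m : ℂ[X])).prod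

lemma mprod_mod {A : Type} [CommRing A] (m : Multiset ℂ) (f : ℂ → A) (x : A)
    (h : ∀ r ∈ m, x ∣ f r - 1) : x ∣ (m.map f).prod - 1 := by
  induction m using Multiset.induction_on with
  | empty => simp
  | cons a m ih =>
    rw [Multiset.map_cons, Multiset.prod_cons]
    have h1 := ih fun r hr => h r (Multiset.mem_cons_of_mem hr)
    have h2 := h a (Multiset.mem_cons_self a m)
    have h3 : f a * (m.map f).prod - 1 = (f a - 1) * (m.map f).prod + ((m.map f).prod - 1) := by
      ring
    rw [h3]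
    exact dvd_add (h2.mul_right _) h1

lemma facR_mod (P : ℤ[X]) (ρ m : ℕ) : (X ^ m : ℂ[X]) ∣ facR P ρ m - 1 := by
  refine mprod_mod _ _ _ fun r _ => ?_
  exact ⟨-C (r⁻¹ ^ ρ), by ring⟩

lemma mprod_mul {A : Type} [CommMonoid A] (m : Multiset ℂ) (f g : ℂ → A) :
    (m.map fun r => f r * g r).prod = (m.map f).prod * (m.map g).prod :=
  Multiset.prod_map_mul

lemma lf_roots {P : ℤ[X]} (hP : P.coeff 0 = 1) (c : ℂ) (m : ℕ) :
    lf P c m = ((P.map (Int.castRingHom ℂ)).roots.map
      fun r => (1 - C c * (C r⁻¹ * X ^ m) : ℂ[X])).prod := by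
  set Z : ℂ[X] := P.map (Int.castRingHom ℂ) with hZ
  have hZ0 : Z.coeff 0 = 1 := by rw [hZ, Polynomial.coeff_map, hP, map_one]
  have hZne : Z ≠ 0 := by
    intro h
    rw [h, Polynomial.coeff_zero] at hZ0
    exact zero_ne_one hZ0
  have hs := (IsAlgClosed.splits Z).eq_prod_roots
  have hr0 : ∀ r ∈ Z.roots, r ≠ 0 := by
    rintro r hr rfl
    have h1 := (Polynomial.mem_roots hZne).1 hr
    rw [Polynomial.IsRoot.def, ← Polynomial.coeff_zero_eq_eval_zero, hZ0] at h1
    exact one_ne_zero h1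
  -- the product of the constants
  have h1 : Z = C (Z.leadingCoeff * (Z.roots.map fun r => -r).prod) *
      (Z.roots.map fun r => (1 - C r⁻¹ * X : ℂ[X])).prod := by
    conv_lhs => rw [hs]
    rw [C_mul, mul_assoc, map_multiset_prod, Multiset.map_map, ← mprod_mul]
    congr 2
    refine Multiset.map_congr rfl fun r hr => ?_
    have := hr0 r hr
    show X - C r = C (-r) * (1 - C r⁻¹ * X)
    have h2 : (C r : ℂ[X]) * C r⁻¹ = 1 := by rw [← C_mul, mul_inv_cancel₀ this, C_1]
    rw [C_neg]
    linear_combination (-X : ℂ[X]) * h2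
  have h2 : Z.leadingCoeff * (Z.roots.map fun r => -r).prod = 1 := by
    have h3 := congrArg (Polynomial.eval 0) h1
    rw [← Polynomial.coeff_zero_eq_eval_zero, hZ0, Polynomial.eval_mul, Polynomial.eval_C,
      Polynomial.eval_multiset_prod, Multiset.map_map] at h3
    have h4 : (Z.roots.map ((Polynomial.eval 0) ∘ fun r => (1 - C r⁻¹ * X : ℂ[X]))).prod = 1 := by
      refine Multiset.prod_eq_one fun x hx => ?_
      obtain ⟨r, -, rfl⟩ := Multiset.mem_map.1 hx
      simp
    rw [h4, mul_one] at h3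
    exact h3.symm
  rw [h2, C_1, one_mul] at h1
  show Z.comp (C c * X ^ m) = _
  conv_lhs => rw [h1]
  rw [Polynomial.multiset_prod_comp, Multiset.map_map]
  congr 1
  refine Multiset.map_congr rfl fun r _ => ?_
  show (1 - C r⁻¹ * X : ℂ[X]).comp (C c * X ^ m) = _
  rw [Polynomial.sub_comp, Polynomial.one_comp, Polynomial.mul_comp, Polynomial.C_comp,
    Polynomial.X_comp]
  ring

/-- products over characters -/
lemma prod_cyc {C' : Type} [CommGroup C'] (U : Subgroup C') (hU : (U : Set C').Finite)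
    (φ : C' →* ℂ) {ρ : ℕ} (hρ : 0 < ρ) (h : ∀ b ∈ U, φ b ^ ρ = 1)
    (hcard : Nat.card U = Nat.card (U ⊓ φ.ker : Subgroup C') * ρ) (y : ℂ[X]) :
    ∏ b ∈ hU.toFinset, (1 - C (φ b) * y) = (1 - y ^ ρ) ^ Nat.card (U ⊓ φ.ker : Subgroup C') := by
  classical
  have hUf : Finite U := hU
  have hKf : ((U ⊓ φ.ker : Subgroup C') : Set C').Finite := hU.subset fun x hx => hx.1
  have hKf' : Finite (U ⊓ φ.ker : Subgroup C') := hKf
  set a := Nat.card (U ⊓ φ.ker : Subgroup C') with ha
  have hapos : 0 < a := Nat.card_pos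
  have h1 : Nat.card U = hU.toFinset.card := by
    rw [← Set.ncard_eq_toFinset_card _ hU, ← Nat.card_coe_set_eq]
    rfl
  have h2 : a = hKf.toFinset.card := by
    rw [← Set.ncard_eq_toFinset_card _ hKf, ← Nat.card_coe_set_eq]
    rfl
  -- the fibres
  have hfib : ∀ z ∈ hU.toFinset.image φ, (hU.toFinset.filter fun b => φ b = z).card = a := by
    intro z hz
    obtain ⟨b0, hb0, rfl⟩ := Finset.mem_image.1 hz
    rw [Set.Finite.mem_toFinset] at hb0
    rw [h2]
    refine Finset.card_bij' (fun b _ => b * b0⁻¹) (fun b _ => b * b0) ?_ ?_ ?_ ?_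
    · intro b hb
      rw [Finset.mem_filter, Set.Finite.mem_toFinset] at hb
      rw [Set.Finite.mem_toFinset]
      refine ⟨U.mul_mem hb.1 (U.inv_mem hb0), ?_⟩
      show φ (b * b0⁻¹) = 1
      rw [map_mul, hb.2, ← map_mul, mul_inv_cancel, map_one]
    · intro b hb
      rw [Set.Finite.mem_toFinset] at hb
      rw [Finset.mem_filter, Set.Finite.mem_toFinset]
      refine ⟨U.mul_mem hb.1 hb0, ?_⟩
      have h3 : φ b = 1 := hb.2
      rw [map_mul, h3, one_mul]
    · intro b _
      exact inv_mul_cancel_right b b0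
    · intro b _
      exact mul_inv_cancel_right b b0
  -- the image
  have hprim : IsPrimitiveRoot (Complex.exp (2 * Real.pi * Complex.I / ρ)) ρ :=
    Complex.isPrimitiveRoot_exp ρ hρ.ne'
  have himg : hU.toFinset.image φ = Polynomial.nthRootsFinset ρ (1 : ℂ) := by
    apply Finset.eq_of_subset_of_card_le
    · intro z hz
      obtain ⟨b, hb, rfl⟩ := Finset.mem_image.1 hz
      rw [Set.Finite.mem_toFinset] at hb
      rw [Polynomial.mem_nthRootsFinset hρ]
      exact h b hb
    · rw [hprim.card_nthRootsFinset]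
      have h3 : hU.toFinset.card = (hU.toFinset.image φ).card * a := by
        rw [Finset.card_eq_sum_card_image φ, Finset.sum_congr rfl hfib, Finset.sum_const,
          smul_eq_mul]
      rw [← h1, hcard, mul_comm] at h3
      exact (Nat.eq_of_mul_eq_mul_right hapos h3).le
  apply Polynomial.funext
  intro t
  rw [Polynomial.eval_prod, Polynomial.eval_pow, Polynomial.eval_sub, Polynomial.eval_one,
    Polynomial.eval_pow]
  set u := Polynomial.eval t y
  have h4 : ∀ b ∈ hU.toFinset, Polynomial.eval t (1 - C (φ b) * y) = 1 - φ b * u := by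
    intro b _
    rw [Polynomial.eval_sub, Polynomial.eval_one, Polynomial.eval_mul, Polynomial.eval_C]
  rw [Finset.prod_congr rfl h4, ← Finset.prod_fiberwise_of_maps_to (g := φ)
    (t := hU.toFinset.image φ) (fun b hb => Finset.mem_image_of_mem _ hb)]
  have h5 : ∀ z ∈ hU.toFinset.image φ,
      ∏ b ∈ hU.toFinset.filter (fun b => φ b = z), (1 - φ b * u) = (1 - z * u) ^ a := by
    intro z hz
    rw [← hfib z hz, ← Finset.prod_const]
    refine Finset.prod_congr rfl fun b hb => ?_
    rw [(Finset.mem_filter.1 hb).2]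
  rw [Finset.prod_congr rfl h5, Finset.prod_pow, himg]
  have h6 := hprim.pow_sub_pow_eq_prod_sub_mul (1 : ℂ) u hρ
  rw [one_pow] at h6
  rw [h6]

end fac

end Pool.Agent.J4.H70.FF
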