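import Pool.Agent.J4.H70.FF.Fib3

/-!
The product formula for the `L`-functions in Kummer extensions: global form.
-/

set_option autoImplicit false
set_option linter.all false
set_option maxHeartbeats 4000000

open FF Module Polynomial

namespace Pool.Agent.J4.H70.FF

open Pool.Agent.W343.BSD Pool.Agent.H123R3.ZT Pool.Agent.W313.Gr Pool.Agent.TH639.CK

section glob

variable {k K L : Type} [Field k] [Finite k] [Field K] [Algebra k K] [FF.IsFF k K] [Field L]
  [Algebra k L] [Algebra K L] [IsScalarTower k K L] [FF.IsFF k L]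

/-- **the Euler factors over a place** -/
theorem loc_fac (χ : MulChar k ℂ) {G : Subgroup Kˣ} (hL : IsKum (orderOf χ) G L)
    {v : Place k K} {S : Finset (Place k L)} {e ρ : ℕ} (D : GaloisFiber v S e ρ)
    (hB : ((Bg (orderOf χ) G : Subgroup (Cl (orderOf χ) K)) : Set (Cl (orderOf χ) K)).Finite)
    {P : ℤ[X]} (hP : P.coeff 0 = 1) (m : ℕ) :
    ∏ b ∈ hB.toFinset, lf P (cg (EvC χ) (ramC k) b v) m = facR P ρ (m * ρ) ^ S.card := by
  classical
  obtain ⟨hρ, -, hEv, hcard, hA⟩ := fib_count χ hL D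
  have hUfin : ((Ug G v : Subgroup (Cl (orderOf χ) K)) : Set (Cl (orderOf χ) K)).Finite :=
    hB.subset fun x hx => (Subgroup.mem_inf.1 hx).1
  have hsub : hUfin.toFinset ⊆ hB.toFinset := by
    intro b hb
    rw [Set.Finite.mem_toFinset] at hb ⊢
    exact (Subgroup.mem_inf.1 hb).1
  have h1 : ∏ b ∈ hB.toFinset, lf P (cg (EvC χ) (ramC k) b v) m =
      ∏ b ∈ hUfin.toFinset, lf P (EvC χ v b) m := by
    rw [← Finset.prod_subset hsub]
    · refine Finset.prod_congr rfl fun b hb => ?_
      rw [Set.Finite.mem_toFinset] at hb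
      have h2 := (Subgroup.mem_inf.1 hb).2
      rw [mem_ker_ordC] at h2
      unfold cg
      rw [if_neg h2]
    · intro b hb hb'
      rw [Set.Finite.mem_toFinset] at hb hb'
      have h2 : v ∈ ramC k b := by
        by_contra h3
        exact hb' (Subgroup.mem_inf.2 ⟨hb, (mem_ker_ordC v b).2 h3⟩)
      unfold cg
      rw [if_pos h2]
      exact lf_zero hP m
  rw [h1, Finset.prod_congr rfl fun b _ => lf_roots hP (EvC χ v b) m]
  have h2 : ∏ b ∈ hUfin.toFinset, ((P.map (Int.castRingHom ℂ)).roots.map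
      fun r => (1 - C (EvC χ v b) * (C r⁻¹ * X ^ m) : ℂ[X])).prod =
      ((P.map (Int.castRingHom ℂ)).roots.map fun r => ∏ b ∈ hUfin.toFinset,
        (1 - C (EvC χ v b) * (C r⁻¹ * X ^ m) : ℂ[X])).prod := by
    induction (P.map (Int.castRingHom ℂ)).roots using Multiset.induction_on with
    | empty => simp
    | cons a s ih => simp only [Multiset.map_cons, Multiset.prod_cons, Finset.prod_mul_distrib, ih]
  rw [h2]
  have h3 : ∀ r : ℂ, ∏ b ∈ hUfin.toFinset, (1 - C (EvC χ v b) * (C r⁻¹ * X ^ m) : ℂ[X]) =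
      (1 - C (r⁻¹ ^ ρ) * X ^ (m * ρ)) ^ S.card := by
    intro r
    have h4 := prod_cyc (Ug G v) hUfin (EvC χ v) hρ hEv hcard (C r⁻¹ * X ^ m)
    rw [h4]
    have h5 : Nat.card (Ug G v ⊓ (EvC χ v).ker : Subgroup (Cl (orderOf χ) K)) = S.card := hA
    rw [h5, mul_pow, ← pow_mul, ← C_pow]
  rw [Multiset.map_congr rfl fun r _ => h3 r]
  unfold facR
  rw [Multiset.prod_map_pow]

variable (K) in
open Classical in
/-- the Euler factor of `J` at the place `w` of `L` -/
noncomputable def facW (P : Place k K → ℤ[X]) (w : Place k L) : ℂ[X] :=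
  if h : ∃ v : Place k K, ∃ e, Over w v e then
    facR (P h.choose) (S.deg w / S.deg h.choose) (S.deg w) else 1

lemma facW_eq {P : Place k K → ℤ[X]} {w : Place k L} {v : Place k K} {e : ℕ} (h : Over w v e) :
    facW K P w = facR (P v) (S.deg w / S.deg v) (S.deg w) := by
  unfold facW
  have h' : ∃ v : Place k K, ∃ e, Over w v e := ⟨v, e, h⟩
  rw [dif_pos h']
  obtain ⟨e', he'⟩ := h'.choose_spec
  have h1 : h'.choose = v := over_unique_base he' h
  rw [h1]

lemma facW_mod (P : Place k K → ℤ[X]) (w : Place k L) :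
    (PowerSeries.X : PowerSeries ℂ) ^ S.deg w ∣ (facW K P w : PowerSeries ℂ) - 1 := by
  have h1 : (X ^ S.deg w : ℂ[X]) ∣ facW K P w - 1 := by
    unfold facW
    split_ifs
    · exact facR_mod _ _ _
    · rw [sub_self]
      exact dvd_zero _
  obtain ⟨y, hy⟩ := h1
  refine ⟨(y : PowerSeries ℂ), ?_⟩
  have := congrArg (fun p : ℂ[X] => (p : PowerSeries ℂ)) hy
  simp only [Polynomial.coe_sub, Polynomial.coe_one, Polynomial.coe_mul, Polynomial.coe_pow,
    Polynomial.coe_X] at this
  exact this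

lemma inv_of_mod {A : Type} [CommRing A] {g : PowerSeries A} {m : ℕ} (hm : 0 < m)
    (h : (PowerSeries.X : PowerSeries A) ^ m ∣ g - 1) :
    g * PowerSeries.invOfUnit g 1 = 1 ∧
      (PowerSeries.X : PowerSeries A) ^ m ∣ PowerSeries.invOfUnit g 1 - 1 := by
  have h1 : PowerSeries.constantCoeff g = 1 := by
    have h2 : (PowerSeries.X : PowerSeries A) ∣ g - 1 := (dvd_pow_self _ hm.ne').trans h
    rwa [PowerSeries.X_dvd_iff, map_sub, map_one, sub_eq_zero] at h2
  have h2 : g * PowerSeries.invOfUnit g 1 = 1 := by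
    apply PowerSeries.mul_invOfUnit
    rw [h1, Units.val_one]
  refine ⟨h2, ?_⟩
  obtain ⟨y, hy⟩ := h
  exact ⟨-(y * PowerSeries.invOfUnit g 1), by
    linear_combination h2 - PowerSeries.invOfUnit g 1 * hy⟩

variable (K L) in
/-- the `L`-function of `J` over `L` -/
noncomputable def LF (P : Place k K → ℤ[X]) : PowerSeries ℂ :=
  eulerProd (fun w : Place k L => S.deg w)
    (fun w => PowerSeries.invOfUnit (facW K P w : PowerSeries ℂ) 1)

lemma LF_mul (P : Place k K → ℤ[X]) : LF K L P * eulerProd (fun w : Place k L => S.deg w)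
    (fun w => (facW K P w : PowerSeries ℂ)) = 1 := by
  unfold LF
  rw [← eulerProd_mul deg_fin (fun w => (inv_of_mod (deg_pos'' w) (facW_mod P w)).2)
    (fun w => facW_mod P w)]
  have : (fun w : Place k L => PowerSeries.invOfUnit (facW K P w : PowerSeries ℂ) 1 *
      (facW K P w : PowerSeries ℂ)) = fun _ => 1 := by
    funext w
    rw [mul_comm]
    exact (inv_of_mod (deg_pos'' w) (facW_mod P w)).1
  rw [this, eulerProd_one]

lemma LS_mul {J : Type} {A : Type} [CommRing A] {d : J → ℕ} (hd : ∀ v, 0 < d v)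
    (hfin : ∀ n, {v | d v ≤ n}.Finite) {P : J → ℤ[X]} (hP : ∀ v, (P v).coeff 0 = 1) (c : J → A) :
    LS d P c * eulerProd d (fun v => (lf (P v) (c v) (d v) : PowerSeries A)) = 1 := by
  unfold LS
  rw [← eulerProd_mul hfin (fun v => lf_invmod (hP v) (c v) (hd v))
    (fun v => lf_mod (hP v) (c v) (d v))]
  have : (fun v => PowerSeries.invOfUnit (lf (P v) (c v) (d v) : PowerSeries A) 1 *
      (lf (P v) (c v) (d v) : PowerSeries A)) = fun _ => 1 := by
    funext v
    rw [mul_comm]
    exact lf_inv (hP v) (c v) (hd v)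
  rw [this, eulerProd_one]

/-- **The product formula.** -/
theorem LF_eq (χ : MulChar k ℂ) {G : Subgroup Kˣ} (hL : IsKum (orderOf χ) G L)
    (hB : ((Bg (orderOf χ) G : Subgroup (Cl (orderOf χ) K)) : Set (Cl (orderOf χ) K)).Finite)
    {P : Place k K → ℤ[X]} (hP : ∀ v, (P v).coeff 0 = 1) :
    LF K L P = ∏ b ∈ hB.toFinset, LT χ P (rep b : K) := by
  classical
  have hfd := hL.fin
  have hgal := hL.galois
  choose Sv ev ρv D using fun v : Place k K => exists_galoisFiber (L := L) v
  have hLT : ∀ b : Cl (orderOf χ) K, LT χ P (rep b : K) *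
      eulerProd (fun v : Place k K => S.deg v)
        (fun v => (lf (P v) (cg (EvC χ) (ramC k) b v) (S.deg v) : PowerSeries ℂ)) = 1 := by
    intro b
    rw [LT_eq, cl_rep]
    exact LS_mul deg_pos'' deg_fin hP _
  have h1 : (∏ b ∈ hB.toFinset, LT χ P (rep b : K)) *
      ∏ b ∈ hB.toFinset, eulerProd (fun v : Place k K => S.deg v)
        (fun v => (lf (P v) (cg (EvC χ) (ramC k) b v) (S.deg v) : PowerSeries ℂ)) = 1 := by
    rw [← Finset.prod_mul_distrib]
    exact Finset.prod_eq_one fun b _ => hLT b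
  have h2 : ∏ b ∈ hB.toFinset, eulerProd (fun v : Place k K => S.deg v)
        (fun v => (lf (P v) (cg (EvC χ) (ramC k) b v) (S.deg v) : PowerSeries ℂ)) =
      eulerProd (fun w : Place k L => S.deg w) (fun w => (facW K P w : PowerSeries ℂ)) := by
    rw [← eulerProd_prod deg_fin hB.toFinset
      (fun b v => (lf (P v) (cg (EvC χ) (ramC k) b v) (S.deg v) : PowerSeries ℂ))
      (fun b v => lf_mod (hP v) _ _)]
    have h3 : (fun v : Place k K => ∏ b ∈ hB.toFinset,
        (lf (P v) (cg (EvC χ) (ramC k) b v) (S.deg v) : PowerSeries ℂ)) =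
        fun v => ∏ w ∈ Sv v, (facW K P w : PowerSeries ℂ) := by
      funext v
      have h4 := loc_fac χ hL (D v) hB (hP v) (S.deg v)
      have h5 := congrArg (fun p : ℂ[X] => (p : PowerSeries ℂ)) h4
      have h6 : ((∏ b ∈ hB.toFinset, lf (P v) (cg (EvC χ) (ramC k) b v) (S.deg v) : ℂ[X]) :
          PowerSeries ℂ) = ∏ b ∈ hB.toFinset,
            (lf (P v) (cg (EvC χ) (ramC k) b v) (S.deg v) : PowerSeries ℂ) := by
        rw [← Polynomial.coeToPowerSeries.ringHom_apply, map_prod]
        rfl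
      rw [← h6, h5, Polynomial.coe_pow, ← Finset.prod_const]
      refine Finset.prod_congr rfl fun w hw => ?_
      have h7 : S.deg w = S.deg v * ρv v := by
        rw [S.deg_eq, S.deg_eq]
        exact (D v).deg w hw
      rw [facW_eq ((D v).isOver w hw), h7, Nat.mul_div_cancel_left _ (deg_pos'' v)]
    rw [h3]
    have hd1 : (S.deg : Place k K → ℕ) = fun v => v.deg := funext fun v => S.deg_eq v
    have hd2 : (S.deg : Place k L → ℕ) = fun w => w.deg := funext fun w => S.deg_eq w
    have key := euler_fiber (R := ℂ) D (g := fun w => (facW K P w : PowerSeries ℂ)) (fun w => by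
      have := facW_mod P w
      rwa [S.deg_eq] at this)
    rw [← hd1, ← hd2] at key
    exact key
  rw [h2] at h1
  have h3 := LF_mul (L := L) P
  rw [mul_comm] at h1 h3
  exact inv_unique h3 h1

end glob

end Pool.Agent.J4.H70.FF
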