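import Pool.Agent.J4.H70.FF.Fib4

/-!
Nonvanishing over Kummer extensions: the assembly.
-/

set_option autoImplicit false
set_option linter.all false
set_option maxHeartbeats 4000000

open FF Module Polynomial

namespace Pool.Agent.J4.H70.FF

open Pool.Agent.W343.BSD Pool.Agent.H123R3.ZT Pool.Agent.W313.Gr Pool.Agent.TH639.CK
open Pool.Agent.Y18.LP

section

variable {k K : Type} [Field k] [Finite k] [Field K] [Algebra k K] [FF.IsFF k K]
  {ι : Type} [Fintype ι] {χ : MulChar k ℂ} {P : ι → Place k K → ℤ[X]} {Q : ι → ℤ[X]}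

lemma NV_congr {P : Place k K → ℤ[X]} {Q : ℤ[X]} {f g : Kˣ} (h : cl (orderOf χ) f = cl (orderOf χ) g)
    (hf : NV χ P Q (f : K)) : NV χ P Q (g : K) := by
  obtain ⟨M, hM, h1⟩ := hf
  refine ⟨M, ?_, h1⟩
  unfold IsPol at hM ⊢
  rw [LT_eq] at hM ⊢
  rw [← h]
  exact hM

/-- nonvanishing over the Kummer extension -/
theorem over_L {L : Type} [Field L] [Algebra k L] [Algebra K L] [IsScalarTower k K L]
    {G : Subgroup Kˣ} (hL : IsKum (orderOf χ) G L) {P : Place k K → ℤ[X]}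
    (hP : ∀ v, (P v).coeff 0 = 1) {Q : ℤ[X]} (h : ∀ f ∈ G, NV χ P Q (f : K)) :
    ∃ M : ℂ[X], ((Q.map (Int.castRingHom ℂ) ^ finrank K L : ℂ[X]) : PowerSeries ℂ) * LF K L P = M ∧
      M.eval ((Nat.card k : ℂ)⁻¹) ≠ 0 := by
  classical
  have hfd := hL.fin
  have hFFL : FF.IsFF k L := isFF_of_finite (K := K)
  have hpos : 0 < finrank K L := finrank_pos
  have hBf : Finite (Bg (orderOf χ) G) := Nat.finite_of_card_ne_zero (by
    rw [← hL.degree]; exact hpos.ne')
  have hB : ((Bg (orderOf χ) G : Subgroup (Cl (orderOf χ) K)) : Set (Cl (orderOf χ) K)).Finite :=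
    hBf
  have hb : ∀ b ∈ hB.toFinset, NV χ P Q (rep b : K) := by
    intro b hb
    rw [Set.Finite.mem_toFinset] at hb
    obtain ⟨f, hf, rfl⟩ := mem_Bg.1 hb
    exact NV_congr (cl_rep _).symm (h f hf)
  choose! M hM hM0 using hb
  refine ⟨∏ b ∈ hB.toFinset, M b, ?_, ?_⟩
  · have hcard : finrank K L = hB.toFinset.card := by
      rw [hL.degree, ← Set.ncard_eq_toFinset_card _ hB, ← Nat.card_coe_set_eq]
      rfl
    rw [LF_eq χ hL hB hP, hcard, Polynomial.coe_pow, ← Finset.prod_const, ← Finset.prod_mul_distrib]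
    have h6 : ((∏ b ∈ hB.toFinset, M b : ℂ[X]) : PowerSeries ℂ) =
        ∏ b ∈ hB.toFinset, (M b : PowerSeries ℂ) := by
      rw [← Polynomial.coeToPowerSeries.ringHom_apply, map_prod]
      rfl
    rw [h6]
    exact Finset.prod_congr rfl fun b hb => hM b hb
  · rw [Polynomial.eval_prod]
    exact Finset.prod_ne_zero_iff.2 hM0

/-- **the infinite subgroups** -/
theorem infinite_fin {l m : ℕ} (hl : l.Prime) (hχ : orderOf χ = l ^ m) {H : Subgroup Kˣ}
    (hyp : HypOn χ P Q l H) (hinf : (Bg (orderOf χ) H : Set (Cl (orderOf χ) K)).Infinite)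
    (F : Subgroup Kˣ) (hF : F ≤ H) (hFn : ∀ f ∈ F, ∀ i, NV χ (P i) (Q i) (f : K)) :
    ∃ H0 : Subgroup Kˣ, F ≤ H0 ∧ H0 ≤ H ∧
      (Bg (orderOf χ) H0 : Set (Cl (orderOf χ) K)).Infinite ∧
      ∀ f ∈ H0, ∀ i, NV χ (P i) (Q i) (f : K) := by
  classical
  have hn : 0 < orderOf χ := orderOf_pos χ
  have hk0 : 0 < Nat.card k := Nat.card_pos
  have hdk : l ∣ Nat.card k - 1 ∨ m = 0 := by
    rcases Nat.eq_zero_or_pos m with h | h
    · exact Or.inr h
    · left
      exact ((dvd_pow_self l h.ne').trans (hχ ▸ dvd_refl _)).trans (orderOf_dvd_card χ)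
  rcases hdk with hdk | hm0
  · obtain ⟨R, hnoeth, P0, t0, hmax, hR, hP1, ht, ht0, hint⟩ := exists_ring hl hk0 hdk m
    rw [← hχ] at hR hP1
    obtain ⟨H1, h1, h2, h3, h4⟩ := infinite_abs (e := orderOf χ) (G := Cl (orderOf χ) K) hR hn hmax
      hP1 (Bg (orderOf χ) H) (fun c _ => Cl_pow c) (bx χ P Q)
      (fun i => good_cls hyp hχ hR hmax.isPrime hP1 ht0 ht hint _ le_rfl i) hinf
      (Bg (orderOf χ) F) (Subgroup.map_mono hF) (fun c hc i => by
        obtain ⟨f, hf, rfl⟩ := mem_Bg.1 hc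
        exact (bx_ne χ P Q (hyp.pol i f (hF hf))).2 (hFn f hf i))
    refine ⟨H ⊓ H1.comap (cl (orderOf χ)), ?_, inf_le_left, ?_, ?_⟩
    · intro f hf
      exact ⟨hF hf, h1 (mem_Bg.2 ⟨f, hf, rfl⟩)⟩
    · refine h3.mono fun c hc => ?_
      obtain ⟨f, hf, rfl⟩ := mem_Bg.1 (h2 hc)
      exact mem_Bg.2 ⟨f, ⟨hf, hc⟩, rfl⟩
    · rintro f ⟨hf1, hf2⟩ i
      exact (bx_ne χ P Q (hyp.pol i f hf1)).1 (h4 _ hf2 i)
  · -- the trivial case
    exfalso
    apply hinf
    rw [hm0, pow_zero] at hχ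
    refine (Set.finite_singleton (1 : Cl (orderOf χ) K)).subset fun c _ => ?_
    have h5 := Cl_pow c
    rw [Set.mem_singleton_iff]
    have h6 : c ^ (1 : ℕ) = 1 := by
      rw [← hχ]
      exact h5
    rwa [pow_one] at h6

/-- **the proportions** -/
theorem prop_fin {l m : ℕ} (hl : l.Prime) (hm : 0 < m) (hχ : orderOf χ = l ^ m)
    {H : Subgroup Kˣ} (hyp : HypOn χ P Q l H) (h0 : ∀ i, NV χ (P i) (Q i) (1 : K)) (s : ℕ) :
    ∃ V : ℕ, ∀ G : Subgroup Kˣ, G ≤ H → (Bg (orderOf χ) G : Set (Cl (orderOf χ) K)).Finite →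
      (Bg (orderOf χ) G : Set (Cl (orderOf χ) K)).ncard ^ s ≤ 2 ^ V *
        {c : Fin s → Cl (orderOf χ) K | (∀ j, c j ∈ Bg (orderOf χ) G) ∧
          ∀ f : Kˣ, cl (orderOf χ) f ∈ Subgroup.closure (Set.range c) →
            ∀ i, NV χ (P i) (Q i) (f : K)}.ncard := by
  classical
  have hn : 0 < orderOf χ := orderOf_pos χ
  have hk0 : 0 < Nat.card k := Nat.card_pos
  have hdk : l ∣ Nat.card k - 1 :=
    ((dvd_pow_self l hm.ne').trans (hχ ▸ dvd_refl _)).trans (orderOf_dvd_card χ)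
  obtain ⟨R, hnoeth, P0, t0, hmax, hR, hP1, ht, ht0, hint⟩ := exists_ring hl hk0 hdk m
  rw [← hχ] at hR hP1
  have h1H : (1 : Kˣ) ∈ H := H.one_mem
  have hb1 : ∀ i, bx χ P Q i 1 ≠ 0 := by
    intro i
    have h1 := (bx_ne χ P Q (hyp.pol i 1 h1H)).2 (by rw [Units.val_one]; exact h0 i)
    rwa [map_one] at h1
  have hb1R : ∀ i, bx χ P Q i 1 ∈ (1 : Submodule R ℂ) := by
    intro i
    have h1 := (good_cls hyp hχ hR hmax.isPrime hP1 ht0 ht hint (Bg (orderOf χ) H) le_rfl i).mem 1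
    exact h1
  obtain ⟨V, hV⟩ := prop_abs (e := orderOf χ) (G := Cl (orderOf χ) K) hR hn hmax hP1 (bx χ P Q)
    hb1R hb1 s
  refine ⟨V, fun G hG hfin => ?_⟩
  have h2 := hV (Bg (orderOf χ) G) hfin (fun c _ => Cl_pow c)
    (fun i => good_cls hyp hχ hR hmax.isPrime hP1 ht0 ht hint _ (Subgroup.map_mono hG) i)
  have h3 : Nat.card (Bg (orderOf χ) G) = (Bg (orderOf χ) G : Set (Cl (orderOf χ) K)).ncard := by
    rw [← Nat.card_coe_set_eq]
    rfl
  rw [h3] at h2
  refine h2.trans (Nat.mul_le_mul_left _ ?_)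
  refine Set.ncard_le_ncard ?_ ?_
  · rintro c ⟨hc1, hc2⟩
    refine ⟨hc1, fun f hf i => ?_⟩
    -- the class of `f` is a product of powers
    have h4 : ∃ J : Fin s → ℕ, cl (orderOf χ) f = ∏ j, c j ^ J j := by
      have hcl : ∀ x ∈ Subgroup.closure (Set.range c), ∃ J : Fin s → ℕ, x = ∏ j, c j ^ J j := by
        intro x hx
        induction hx using Subgroup.closure_induction with
        | mem x hx =>
          obtain ⟨j, rfl⟩ := hx
          refine ⟨Pi.single j 1, ?_⟩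
          rw [Finset.prod_eq_single j]
          · rw [Pi.single_eq_same, pow_one]
          · intro i _ hij
            rw [Pi.single_eq_of_ne hij, pow_zero]
          · intro h
            exact absurd (Finset.mem_univ j) h
        | one => exact ⟨0, by simp⟩
        | mul x x' _ _ h1 h2 =>
          obtain ⟨J, rfl⟩ := h1
          obtain ⟨J', rfl⟩ := h2
          refine ⟨J + J', ?_⟩
          rw [← Finset.prod_mul_distrib]
          exact Finset.prod_congr rfl fun j _ => by rw [Pi.add_apply, pow_add]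
        | inv x _ h =>
          obtain ⟨J, rfl⟩ := h
          refine ⟨fun j => (orderOf χ - 1) * J j, ?_⟩
          rw [← Finset.prod_inv_distrib]
          refine Finset.prod_congr rfl fun j _ => ?_
          have h1 : c j ^ J j * c j ^ ((orderOf χ - 1) * J j) = 1 := by
            rw [← pow_add]
            have h2 : J j + (orderOf χ - 1) * J j = orderOf χ * J j := by
              obtain ⟨k, hk⟩ := Nat.exists_eq_succ_of_ne_zero hn.ne'
              rw [hk]
              simp only [Nat.succ_eq_add_one, Nat.add_sub_cancel]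
              ring
            rw [h2, pow_mul, Cl_pow, one_pow]
          exact inv_eq_of_mul_eq_one_right h1
      exact hcl _ hf
    obtain ⟨J, hJ⟩ := h4
    have h5 := hc2 J i
    rw [← hJ] at h5
    -- an element of `H` in the class
    have h6 : ∃ g ∈ H, cl (orderOf χ) g = cl (orderOf χ) f := by
      have h7 : cl (orderOf χ) f ∈ Bg (orderOf χ) G := by
        rw [hJ]
        exact Subgroup.prod_mem _ fun j _ => Subgroup.pow_mem _ (hc1 j) _
      obtain ⟨g, hg, hgf⟩ := mem_Bg.1 h7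
      exact ⟨g, hG hg, hgf⟩
    obtain ⟨g, hg, hgf⟩ := h6
    rw [← hgf] at h5
    exact NV_congr hgf ((bx_ne χ P Q (hyp.pol i g hg)).1 h5)
  · have hT : {c : Fin s → Cl (orderOf χ) K | ∀ j, c j ∈ (Bg (orderOf χ) G :
        Set (Cl (orderOf χ) K))}.Finite :=
      Set.Finite.pi' (t := fun _ : Fin s => (Bg (orderOf χ) G : Set (Cl (orderOf χ) K)))
        fun _ => hfin
    exact hT.subset fun c hc => hc.1

end

end Pool.Agent.J4.H70.FF
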