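import Pool.Agent.J4.H70.FF.Cls

/-!
Kummer extensions of function fields: the pairing, and the decomposition groups.
-/

set_option autoImplicit false
set_option linter.all false

open FF Module Polynomial

namespace Pool.Agent.J4.H70.FF

open Pool.Agent.W343.BSD Pool.Agent.H123R3.ZT Pool.Agent.W313.Gr Pool.Agent.TH639.CK

section prim

variable {k : Type} [Field k] [Finite k]

lemma orderOf_dvd_card (χ : MulChar k ℂ) : orderOf χ ∣ Nat.card k - 1 := by
  have h1 : χ ^ (Nat.card k - 1) = 1 := by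
    have hk1 : 1 < Nat.card k := Finite.one_lt_card
    apply MulChar.ext
    intro a
    have := Fintype.ofFinite k
    rw [MulChar.pow_apply' χ (by omega), MulChar.one_apply a.isUnit, ← map_pow,
      Nat.card_eq_fintype_card, FiniteField.pow_card_sub_one_eq_one _ a.ne_zero, map_one]
  exact orderOf_dvd_of_pow_eq_one h1

lemma card_units' : Nat.card kˣ = Nat.card k - 1 := by
  have := Fintype.ofFinite k
  classical
  rw [Nat.card_eq_fintype_card, Nat.card_eq_fintype_card, Fintype.card_units]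

lemma exists_primitive (χ : MulChar k ℂ) : ∃ ζ : k, IsPrimitiveRoot ζ (orderOf χ) := by
  have hd := orderOf_dvd_card χ
  obtain ⟨g, hg⟩ := IsCyclic.exists_generator (α := kˣ)
  have ho : orderOf g = Nat.card k - 1 := by
    rw [orderOf_eq_card_of_forall_mem_zpowers hg, card_units']
  have hk1 : 1 < Nat.card k := Finite.one_lt_card
  obtain ⟨c, hc⟩ := hd
  refine ⟨((g ^ c : kˣ) : k), ?_⟩
  rw [IsPrimitiveRoot.coe_units_iff]
  have h1 : IsPrimitiveRoot g (Nat.card k - 1) := ho ▸ IsPrimitiveRoot.orderOf g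
  exact h1.pow (by omega) (by rw [hc, mul_comm])

/-- the kernel of the character -/
lemma ker_char (χ : MulChar k ℂ) {y : k} (hy : y ≠ 0) (h : χ y = 1) :
    y ^ ((Nat.card k - 1) / orderOf χ) = 1 := by
  have hd := orderOf_dvd_card χ
  have hk1 : 1 < Nat.card k := Finite.one_lt_card
  have hn : 0 < orderOf χ := orderOf_pos χ
  obtain ⟨g, hg⟩ := IsCyclic.exists_generator (α := kˣ)
  obtain ⟨a, ha⟩ := (mem_powers_iff_mem_zpowers.2 (hg (Units.mk0 y hy)))
  -- the order of `χ g`
  have h1 : orderOf χ ∣ orderOf (χ (g : k)) := by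
    apply orderOf_dvd_of_pow_eq_one
    have hpos : 0 < orderOf (χ (g : k)) := by
      rw [orderOf_pos_iff, isOfFinOrder_iff_pow_eq_one]
      exact ⟨orderOf χ, hn, pow_unit g.ne_zero⟩
    apply MulChar.ext
    intro b
    obtain ⟨j, hj⟩ := (mem_powers_iff_mem_zpowers.2 (hg b))
    have hj' : g ^ j = b := hj
    rw [MulChar.pow_apply' χ hpos.ne', MulChar.one_apply b.isUnit, ← hj', Units.val_pow_eq_pow_val,
      map_pow, ← pow_mul, mul_comm, pow_mul, pow_orderOf_eq_one, one_pow]
  have ha' : g ^ a = Units.mk0 y hy := ha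
  have h2 : χ (g : k) ^ a = 1 := by
    rw [← map_pow, ← Units.val_pow_eq_pow_val, ha']
    exact h
  have h3 : orderOf χ ∣ a := h1.trans (orderOf_dvd_of_pow_eq_one h2)
  obtain ⟨b, rfl⟩ := h3
  have h4 : (y : k) = ((g ^ (orderOf χ * b) : kˣ) : k) := by rw [ha']; rfl
  rw [h4, ← Units.val_pow_eq_pow_val, ← pow_mul]
  have h5 : orderOf χ * b * ((Nat.card k - 1) / orderOf χ) = (Nat.card k - 1) * b := by
    rw [mul_assoc, mul_comm b, ← mul_assoc, Nat.mul_div_cancel' hd]
  rw [h5, pow_mul]
  have h6 : g ^ (Nat.card k - 1) = 1 := by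
    rw [← card_units']
    exact pow_card_eq_one'
  rw [h6, one_pow, Units.val_one]

/-- an element of a finite extension whose norm is in the kernel is an `n`-th power -/
lemma exists_root_of_norm (χ : MulChar k ℂ) {F : Type} [Field F] [Finite F] [Algebra k F] {x : F}
    (hx : x ≠ 0) (h : χ (Algebra.norm k x) = 1) : ∃ y : F, y ^ orderOf χ = x := by
  have : Module.Finite k F := inferInstance
  have hn : 0 < orderOf χ := orderOf_pos χ
  have hd := orderOf_dvd_card χ
  have hk1 : 1 < Nat.card k := Finite.one_lt_card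
  have hN0 : Algebra.norm k x ≠ 0 := by
    rw [Ne, Algebra.norm_eq_zero_iff]
    exact hx
  have h1 := ker_char χ hN0 h
  obtain ⟨g, hg⟩ := IsCyclic.exists_generator (α := Fˣ)
  obtain ⟨a, ha⟩ := (mem_powers_iff_mem_zpowers.2 (hg (Units.mk0 x hx)))
  have ha' : g ^ a = Units.mk0 x hx := ha
  have hF : Nat.card Fˣ = Nat.card F - 1 := card_units'
  have hdeg : Nat.card F = Nat.card k ^ finrank k F := Module.natCard_eq_pow_finrank
  have hF1 : 1 < Nat.card F := Finite.one_lt_card
  -- the norm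
  have hnorm : algebraMap k F (Algebra.norm k x) = x ^ ((Nat.card F - 1) / (Nat.card k - 1)) := by
    have := Fintype.ofFinite k
    have := Fintype.ofFinite F
    have h2 := FiniteField.algebraMap_norm_eq_pow (K := k) (K' := F) (x := x)
    rw [h2]
  have hdk : Nat.card k - 1 ∣ Nat.card F - 1 := by
    rw [hdeg]
    simpa using Nat.sub_dvd_pow_sub_pow (Nat.card k) 1 (finrank k F)
  have h3 : x ^ ((Nat.card F - 1) / orderOf χ) = 1 := by
    have h4 : (Nat.card F - 1) / orderOf χ =
        (Nat.card F - 1) / (Nat.card k - 1) * ((Nat.card k - 1) / orderOf χ) := by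
      rw [Nat.div_mul_div_comm hdk hd, mul_comm (Nat.card F - 1), Nat.mul_div_mul_left _ _ (by omega)]
    rw [h4, pow_mul, ← hnorm, ← map_pow, h1, map_one]
  have h5 : g ^ (a * ((Nat.card F - 1) / orderOf χ)) = 1 := by
    rw [pow_mul, ha']
    apply Units.ext
    rw [Units.val_pow_eq_pow_val, Units.val_mk0, h3, Units.val_one]
  have h6 := orderOf_dvd_of_pow_eq_one h5
  rw [orderOf_eq_card_of_forall_mem_zpowers hg, hF] at h6
  have hdF : orderOf χ ∣ Nat.card F - 1 := hd.trans hdk
  obtain ⟨c, hc⟩ := hdF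
  have hc0 : 0 < c := by
    rcases Nat.eq_zero_or_pos c with h | h
    · rw [h, mul_zero] at hc
      omega
    · exact h
  rw [hc, Nat.mul_div_cancel_left _ hn] at h6
  have h7 : orderOf χ ∣ a := Nat.dvd_of_mul_dvd_mul_right hc0 h6
  obtain ⟨b, rfl⟩ := h7
  refine ⟨((g ^ b : Fˣ) : F), ?_⟩
  rw [← Units.val_pow_eq_pow_val, ← pow_mul, mul_comm b, ha']
  rfl

end prim

end Pool.Agent.J4.H70.FF
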