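import Pool.Agent.TH639.CK.Core

/-!
The characters of Kummer extensions of function fields at a place, extended to all elements.
-/

set_option autoImplicit false
set_option linter.all false

open FF Module

namespace Pool.Agent.J4.H70.FF

open Pool.Agent.W343.BSD Pool.Agent.H123R3.ZT Pool.Agent.W313.Gr Pool.Agent.TH639.CK

variable {k K : Type} [Field k] [Finite k] [Field K] [Algebra k K] [FF.IsFF k K]

/-- a uniformizer -/
noncomputable def unif (v : Place k K) : K := v.surj.choose

lemma unif_ne (v : Place k K) : unif v ≠ 0 := v.surj.choose_spec.1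
lemma unif_ord (v : Place k K) : v.ord (unif v) = 1 := v.surj.choose_spec.2

/-- the unit part at `v` -/
noncomputable def upart (v : Place k K) (f : K) : K := f * unif v ^ (-v.ord f)

lemma upart_ne (v : Place k K) {f : K} (hf : f ≠ 0) : upart v f ≠ 0 :=
  mul_ne_zero hf (zpow_ne_zero _ (unif_ne v))

lemma upart_ord (v : Place k K) {f : K} (hf : f ≠ 0) : v.ord (upart v f) = 0 := by
  unfold upart
  rw [v.ord_mul hf (zpow_ne_zero _ (unif_ne v)), v.ord_zpow, unif_ord]
  ring

lemma upart_mul (v : Place k K) {f g : K} (hf : f ≠ 0) (hg : g ≠ 0) :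
    upart v (f * g) = upart v f * upart v g := by
  unfold upart
  rw [v.ord_mul hf hg, neg_add, zpow_add₀ (unif_ne v)]
  ring

omit [Finite k] [FF.IsFF k K] in
lemma normRed_mul (v : Place k K) {f g : K} (hf : v.Reg f) (hg : v.Reg g) :
    normRed v (f * g) = normRed v f * normRed v g := by
  rw [normRed_eq, normRed_eq, normRed_eq, v.red_mul hf hg, map_mul]

omit [Finite k] [FF.IsFF k K] in
lemma normRed_one (v : Place k K) : normRed v (1 : K) = 1 := by
  rw [normRed_eq, v.red_one, map_one]

omit [Finite k] [FF.IsFF k K] in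
lemma normRed_pow (v : Place k K) {f : K} (hf : v.Reg f) (n : ℕ) :
    normRed v (f ^ n) = normRed v f ^ n := by
  rw [normRed_eq, normRed_eq, v.red_pow hf, map_pow]

/-- the character at `v`, for all elements of `K` -/
noncomputable def Ev (χ : MulChar k ℂ) (v : Place k K) : Kˣ →* ℂ where
  toFun f := χ (normRed v (upart v (f : K)))
  map_one' := by
    have h1 : upart v (1 : K) = 1 := by
      unfold upart
      rw [v.ord_one]
      simp
    rw [Units.val_one, h1, normRed_one, map_one]
  map_mul' f g := by
    rw [Units.val_mul, upart_mul v f.ne_zero g.ne_zero,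
      normRed_mul v (Or.inr (upart_ord v f.ne_zero).ge) (Or.inr (upart_ord v g.ne_zero).ge), map_mul]

lemma pow_unit {χ : MulChar k ℂ} {x : k} (hx : x ≠ 0) : χ x ^ orderOf χ = 1 := by
  have h0 : 0 < orderOf χ := orderOf_pos χ
  rw [← MulChar.pow_apply' χ h0.ne', pow_orderOf_eq_one, MulChar.one_apply (isUnit_iff_ne_zero.2 hx)]

lemma Ev_pow (χ : MulChar k ℂ) (v : Place k K) (f : Kˣ) : Ev χ v f ^ orderOf χ = 1 :=
  pow_unit (normRed_ne v (upart_ne v f.ne_zero) (upart_ord v f.ne_zero))

/-- the value of the symbol -/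
lemma symbol_unram (χ : MulChar k ℂ) (v : Place k K) (f : Kˣ) (h : (orderOf χ : ℤ) ∣ v.ord (f : K)) :
    symbol χ (f : K) v = Ev χ v f := by
  have h' := (exists_iff v f.ne_zero (orderOf χ)).2 h
  unfold symbol
  rw [dif_pos h']
  obtain ⟨hg0, hg⟩ := h'.choose_spec
  set g := h'.choose with hgdef
  have hord : v.ord (f : K) + orderOf χ * v.ord g = 0 := by
    rw [v.ord_mul f.ne_zero (pow_ne_zero _ hg0), v.ord_pow] at hg
    exact hg
  -- the element is the unit part times a power
  set u := upart v g with hu
  have e1 : (f : K) * g ^ orderOf χ = upart v (f : K) * u ^ orderOf χ := by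
    have h1 : (f : K) * g ^ orderOf χ = upart v ((f : K) * g ^ orderOf χ) := by
      unfold upart
      rw [hg]
      simp
    have h2 : ∀ n : ℕ, upart v (g ^ n) = upart v g ^ n := by
      intro n
      induction n with
      | zero =>
        rw [pow_zero, pow_zero]
        unfold upart
        rw [v.ord_one]
        simp
      | succ n ih => rw [pow_succ, pow_succ, upart_mul v (pow_ne_zero _ hg0) hg0, ih]
    rw [h1, upart_mul v f.ne_zero (pow_ne_zero _ hg0), h2]
  have hur : v.Reg u := Or.inr (upart_ord v hg0).ge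
  have hupr : v.Reg (u ^ orderOf χ) := by
    right
    rw [v.ord_pow, hu, upart_ord v hg0, mul_zero]
  rw [e1, normRed_mul v (Or.inr (upart_ord v f.ne_zero).ge) hupr, map_mul, normRed_pow v hur,
    map_pow, pow_unit (normRed_ne v (upart_ne v hg0) (upart_ord v hg0)), mul_one]
  rfl

end Pool.Agent.J4.H70.FF
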